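import Pool.Agent.CC95.BehS48

set_option autoImplicit false

/-! # CC95/Beh: the tile behind a facet, at a ridge point -/

open Set Metric
open scoped RealInnerProductSpace

namespace Pool.CC95

open Pool.FF24 Pool.FF25 Pool.FF56

variable {E : Type*} [NormedAddCommGroup E] [InnerProductSpace ℝ E]
variable {P : HPoly E} {T : Set (ℝ × E)} {p : E} {τ σ : ℝ × E} {n n' m m' : E}

/-- PROOF. `FF25.cross` with `v = τ.1 • n'`, `FF25.act_step`, `FF25.mf_step`; the type from `Mv` (`σ.1 * τ.1 = ± 1`). -/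
theorem At.behind (hT : IsFF P T) (h : At P T p τ n n') :
    ∃ σ : ℝ × E, Beh P p τ σ n' ∧ ∃ α β : ℝ, 0 < α ∧ At P T p σ (-n') (α • n + β • n') :=
  h.behind48 hT

end Pool.CC95
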