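import Pool.Agent.CC95.Def

set_option autoImplicit false

/-! # CC95/BehS48: the tile behind a facet, at a ridge point -/

open Set Metric
open scoped RealInnerProductSpace

namespace Pool.CC95

open Pool.FF24 Pool.FF25 Pool.FF56

variable {E : Type*} [NormedAddCommGroup E] [InnerProductSpace ℝ E]
variable {P : HPoly E} {T : Set (ℝ × E)} {p : E} {τ σ : ℝ × E} {n n' m m' : E}

theorem At.behind48 (hT : IsFF P T) (h : At P T p τ n n') :
    ∃ σ : ℝ × E, Beh P p τ σ n' ∧ ∃ α β : ℝ, 0 < α ∧ At P T p σ (-n') (α • n + β • n') := by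
  have ht := hT.sign τ h.mem
  have htt : τ.1 * τ.1 = 1 := by
    rcases ht with h | h <;> rw [h] <;> norm_num
  have ht0 : τ.1 ≠ 0 := by
    intro h0
    rw [h0] at htt
    norm_num at htt
  have hvA : τ.1 • n' ∈ P.act (crd τ p) := by rw [h.act]; simp
  have huv : τ.1 • n ≠ τ.1 • n' := fun e => h.ne (smul_right_injective E ht0 e)
  obtain ⟨σ, hσ, hne, v', hm, hcr⟩ := cross hT h.mem hvA.1
  have hs := hT.sign σ hσ
  have hss : σ.1 * σ.1 = 1 := by
    rcases hs with h | h <;> rw [h] <;> norm_num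
  have hs0 : σ.1 ≠ 0 := by
    intro h0
    rw [h0] at hss
    norm_num at hss
  have hcp : crd σ p = (σ.1 * τ.1) • crd τ p + σ.1 • (τ.2 - σ.2) := by
    rw [← hcr, X_crd ht]
  have hv' : v' = σ.1 • (-n') := by
    rw [hm.nrm, smul_smul, mul_assoc, htt, mul_one, smul_neg]
  have hyf : crd τ p ∈ P.fc (τ.1 • n') := ⟨h.body, hvA.2⟩
  have hXi : ∀ z, X σ ((σ.1 * τ.1) • z + σ.1 • (τ.2 - σ.2)) = X τ z := by
    intro z
    rw [← hcr, X_crd hs]
  obtain ⟨w, a, b, hact, hvw, ha, hw⟩ := act_step hm h.body huv h.act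
  have hw' : w = σ.1 • (a • n + b • n') := by
    rw [hw, smul_comm a, smul_comm b, ← smul_add, smul_smul, mul_assoc, htt, mul_one]
  refine ⟨σ, ⟨hne, ?_, ?_, ?_⟩, a, b, ha, ⟨hσ, ?_, ?_, ?_⟩⟩
  · rcases hm.sgn with he | he
    · right
      have h1 : σ.1 = τ.1 := by
        calc σ.1 = (σ.1 * τ.1) * τ.1 := by rw [mul_assoc, htt, mul_one]
          _ = τ.1 := by rw [he, one_mul]
      refine ⟨h1, ?_, σ.1 • (τ.2 - σ.2), ?_⟩
      · have h2 := hm.mem'
        rw [hv', h1, smul_neg] at h2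
        exact h2
      · intro z
        have h2 := hm.iff z
        rw [he, one_smul, hv', h1, smul_neg] at h2
        rw [h1]
        exact h2
    · left
      have h1 : σ.1 = -τ.1 := by
        calc σ.1 = (σ.1 * τ.1) * τ.1 := by rw [mul_assoc, htt, mul_one]
          _ = -τ.1 := by rw [he, neg_one_mul]
      refine ⟨h1, σ.1 • (τ.2 - σ.2), ?_⟩
      intro z hz
      have h2 := (hm.iff z).1 hz
      rw [he, hv', smul_neg] at h2
      have h3 : -(σ.1 • n') = τ.1 • n' := by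
        rw [h1, neg_smul, neg_neg]
      rw [h3] at h2
      have h4 : σ.1 • (τ.2 - σ.2) - z = (-1 : ℝ) • z + σ.1 • (τ.2 - σ.2) := by
        rw [neg_smul, one_smul]
        abel
      rw [h4]
      exact h2
  · rw [hcp, ← mf_step hm hyf]
    ext x
    constructor
    · rintro ⟨_, ⟨z, hz, rfl⟩, rfl⟩
      refine ⟨z, hz, ?_⟩
      exact (hXi z).symm
    · rintro ⟨z, hz, rfl⟩
      exact ⟨_, ⟨z, hz, rfl⟩, hXi z⟩
  · have h3 : -(σ.1 • n') = v' := by rw [hv', smul_neg]
    rw [h3]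
    ext x
    constructor
    · rintro ⟨z, hz, rfl⟩
      have h4 : (σ.1 * τ.1) • (crd τ (X σ z)) + σ.1 • (τ.2 - σ.2) = z := by
        rw [← hcr, X_crd ht, crd_X hs]
      refine ⟨crd τ (X σ z), (hm.iff _).2 (by rw [h4]; exact hz), ?_⟩
      exact X_crd ht _
    · rintro ⟨z, hz, rfl⟩
      exact ⟨_, (hm.iff z).1 hz, hXi z⟩
  · rw [hcp]
    exact ((hm.iff _).1 hyf).1
  · intro e
    apply hvw
    rw [hv', hw', e]
  · rw [hcp, hact, hv', hw']

end Pool.CC95
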