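import Pool.Agent.FF79.NecD38

set_option autoImplicit false

/-! # CC95/Uni: the neighbours of `a` in a plane are unique -/

open Set Metric
open scoped RealInnerProductSpace

namespace Pool.CC95.Uni

open Pool.FF24

variable {E : Type*} [NormedAddCommGroup E] [InnerProductSpace ℝ E]
variable {P : HPoly E}

theorem flag_unique {a w x x' z z' : E} (hz : z ∈ P.body) (hz' : z' ∈ P.body)
    (h : P.act z = {a, x}) (h' : P.act z' = {a, x'}) {A W A' W' : ℝ} (hx : x = A • a + W • w)
    (hx' : x' = A' • a + W' • w) (hW : 0 < W * W') : x = x' := by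
  have hW0 : W ≠ 0 := by
    rintro rfl
    rw [zero_mul] at hW
    exact lt_irrefl _ hW
  have hW1 : W' ≠ 0 := by
    rintro rfl
    rw [mul_zero] at hW
    exact lt_irrefl _ hW
  have e : |W'| * W = |W| * W' := by
    rcases lt_or_gt_of_ne hW0 with h0 | h0
    · have h1 : W' < 0 := by
        by_contra hc
        push Not at hc
        have := mul_nonpos_of_nonpos_of_nonneg h0.le hc
        linarith
      rw [abs_of_neg h0, abs_of_neg h1]
      ring
    · have h1 : 0 < W' := by
        by_contra hc
        push Not at hc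
        have := mul_nonpos_of_nonneg_of_nonpos h0.le hc
        linarith
      rw [abs_of_pos h0, abs_of_pos h1]
      ring
  have hb : 0 < |W'| := abs_pos.2 hW1
  have hd : 0 < |W| := abs_pos.2 hW0
  set c : ℝ := |W| * A' - |W'| * A with hc
  have hc1 : 0 < 1 + |c| := by have := abs_nonneg c; linarith
  have hc2 : 0 < 1 + |c| + c := by have := neg_abs_le c; linarith
  have key : (1 + |c| + c) • a + |W'| • x = (1 + |c|) • a + |W| • x' := by
    have e1 : (1 + |c| + c) • a + |W'| • (A • a + W • w) =
        (1 + |c| + c + |W'| * A) • a + (|W'| * W) • w := by module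
    have e2 : (1 + |c|) • a + |W| • (A' • a + W' • w) =
        (1 + |c| + |W| * A') • a + (|W| * W') • w := by module
    rw [hx, hx', e1, e2, e]
    congr 2
    rw [hc]
    ring
  have hset := FF79.cone_disj38 (P := P) (a := (a, x)) (b := (a, x')) hz h hz' h' hc2 hb hc1 hd key
  rcases Set.pair_eq_pair_iff.1 hset with ⟨-, h2⟩ | ⟨h1, h2⟩
  · exact h2
  · show x = x'
    have h3 : a = x' := h1
    have h4 : x = a := h2
    rw [h4, h3]

end Pool.CC95.Uni
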