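import Pool.Agent.CC95.Var
import Pool.Agent.CC95.Uni

set_option autoImplicit false

/-!
# CC95/Cas: the cases: the patterns at a ridge of a varying facet give a symmetric belt of 4 or 6 facets
-/

open Set Metric
open scoped RealInnerProductSpace

namespace Pool.CC95

open Pool.FF24 Pool.FF25 Pool.FF56

variable {E : Type*} [NormedAddCommGroup E] [InnerProductSpace ℝ E]
variable {P : HPoly E} {T : Set (ℝ × E)}
variable {a c ca y r r' l l' : E}

/-! ### plane coordinates -/

theorem co_a {w x : E} (ha : ‖a‖ = 1) (haw : ⟪a, w⟫ = 0) {A W : ℝ} (hx : x = A • a + W • w) : ⟪a, x⟫ = A := by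
  rw [hx, inner_add_right, real_inner_smul_right, real_inner_smul_right, haw, real_inner_self_eq_norm_sq, ha]
  ring

theorem co_w {w x : E} (haw : ⟪a, w⟫ = 0) {A W : ℝ} (hx : x = A • a + W • w) : ⟪w, x⟫ = W * ⟪w, w⟫ := by
  rw [hx, inner_add_right, real_inner_smul_right, real_inner_smul_right, real_inner_comm, haw]
  ring

theorem btw {w u v x z : E} (ha : ‖a‖ = 1) (haw : ⟪a, w⟫ = 0) (hw : w ≠ 0) (hz : z ∈ P.body)
    (h : P.act z = {u, v}) (hxN : x ∈ P.N) {Au Wu Av Wv A W : ℝ} (hu : u = Au • a + Wu • w)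
    (hv : v = Av • a + Wv • w) (hx : x = A • a + W • w) (h1 : 0 < Au * Wv - Av * Wu)
    (h2 : 0 < A * Wv - Av * W) (h3 : 0 < Au * W - A * Wu) : False := by
  have hww : ⟪w, w⟫ ≠ 0 := (real_inner_self_pos.2 hw).ne'
  have huv : u ≠ v := by
    intro he
    have e1 := co_a ha haw hu
    have e2 := co_a ha haw hv
    have e3 := co_w haw hu
    have e4 := co_w haw hv
    rw [he] at e1 e3
    have e5 : Au = Av := e1.symm.trans e2
    have e6 : Wu = Wv := mul_right_cancel₀ hww (e3.symm.trans e4)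
    rw [e5, e6, sub_self] at h1
    exact lt_irrefl _ h1
  refine no_between hz huv h hxN (α := (A * Wv - Av * W) / (Au * Wv - Av * Wu))
    (β := (Au * W - A * Wu) / (Au * Wv - Av * Wu)) (div_pos h2 h1) (div_pos h3 h1) ?_
  have hD : Au * Wv - Av * Wu ≠ 0 := h1.ne'
  have e1 : (A * Wv - Av * W) / (Au * Wv - Av * Wu) * Au + (Au * W - A * Wu) / (Au * Wv - Av * Wu) * Av = A := by
    rw [div_mul_eq_mul_div, div_mul_eq_mul_div, ← add_div, div_eq_iff hD]
    ring
  have e2 : (A * Wv - Av * W) / (Au * Wv - Av * Wu) * Wu + (Au * W - A * Wu) / (Au * Wv - Av * Wu) * Wv = W := by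
    rw [div_mul_eq_mul_div, div_mul_eq_mul_div, ← add_div, div_eq_iff hD]
    ring
  rw [hx, hu, hv]
  conv_lhs => rw [← e1, ← e2]
  module

theorem eq_of_det {w x x' : E} (hx1 : ‖x‖ = 1) (hx1' : ‖x'‖ = 1) {A W A' W' : ℝ} (hx : x = A • a + W • w)
    (hx' : x' = A' • a + W' • w) (hW : 0 < W * W') (hd : A * W' = A' * W) : x = x' := by
  have h1 : W' • x = W • x' := by
    rw [hx, hx', smul_add, smul_add, smul_smul, smul_smul, smul_smul, smul_smul, mul_comm W' A, hd,
      mul_comm W' W, mul_comm A' W]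
  have h2 := congrArg (fun z => ‖z‖) h1
  simp only [norm_smul, hx1, hx1', mul_one, Real.norm_eq_abs] at h2
  have h3 : W' = W := by
    rcases lt_or_ge 0 W with h | h
    · have h4 : 0 < W' := by
        by_contra hc
        push Not at hc
        nlinarith
      rwa [abs_of_pos h, abs_of_pos h4] at h2
    · have h4 : W' ≤ 0 := by
        by_contra hc
        push Not at hc
        nlinarith
      rw [abs_of_nonpos h, abs_of_nonpos h4] at h2
      linarith
  have h4 : W ≠ 0 := by
    rintro rfl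
    simp at hW
  rw [h3] at h1
  exact smul_right_injective E h4 h1

theorem cong_refl (y : E) : Pool.FF57.Cong P y y := ⟨0, Or.inl (by simp)⟩

theorem cong_trans {x y z : E} (h : Pool.FF57.Cong P x y) (h' : Pool.FF57.Cong P y z) :
    Pool.FF57.Cong P x z := by
  obtain ⟨c, h | h⟩ := h <;> obtain ⟨c', h' | h'⟩ := h'
  · refine ⟨c + c', Or.inl ?_⟩
    rw [h', h, Set.image_image]
    exact Set.image_congr fun z _ => by abel
  · refine ⟨c' - c, Or.inr ?_⟩
    rw [h', h, Set.image_image]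
    exact Set.image_congr fun z _ => by abel
  · refine ⟨c + c', Or.inr ?_⟩
    rw [h', h, Set.image_image]
    exact Set.image_congr fun z _ => by abel
  · refine ⟨c' - c, Or.inl ?_⟩
    rw [h', h, Set.image_image]
    exact Set.image_congr fun z _ => by abel

theorem cong_of_mvT {v v' : E} (hm : Mv P 1 c v v') (hy : y ∈ P.fc v) : Pool.FF57.Cong P y (y + c) := by
  refine ⟨c, Or.inl ?_⟩
  have h := mf_step hm hy
  rw [one_smul] at h
  rw [← h]
  exact Set.image_congr fun z _ => by rw [one_smul]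

theorem cong_of_mvI {v v' : E} (hm : Mv P (-1) c v v') (hy : y ∈ P.fc v) : Pool.FF57.Cong P y (c - y) := by
  refine ⟨c, Or.inr ?_⟩
  have h := mf_step hm hy
  have e : (-1 : ℝ) • y + c = c - y := by module
  rw [e] at h
  rw [← h]
  exact Set.image_congr fun z _ => by module

/-- PARALLELOGRAM -/
theorem Dat.para (D : Dat P a c ca y r r' l l') (h : l' = -r) : Pool.FF57.Belt P a y := by
  have s1 := D.sgn_r
  have s2 := D.swap.sgn_r
  rw [h, inner_neg_left] at s2
  have e1 : r = r' := s1.2 (by linarith [s1.1, s2.1])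
  have e2 : -r = l := s2.2 (by linarith [s1.1, s2.1])
  obtain ⟨w, -, -, -, -, -, -, n1, n2, n3⟩ := D.coord
  have g1 : P.act y = {a, r} := D.hr
  have g2 : P.act (y + c) = {-a, r} := by rw [D.hr', e1]
  have g3 : P.act (ca - y) = {a, -r} := by rw [D.hl', h]
  have g4 : P.act (ca - y + c) = {-a, -r} := by rw [D.hl, e2]
  have c1 := cong_of_mvT D.mvT D.yfc
  have c2 := cong_of_mvI D.mvI D.yfc
  have c3 := cong_trans c2 (cong_of_mvT D.mvT D.y'fc)
  refine Or.inl ⟨r, ⟨D.hra.symm, y, D.hy, g1, cong_refl y⟩, ⟨by rw [e1]; exact n1, y + c,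
    ((D.hc y).1 D.yfc).1, by rw [g2, Set.pair_comm], c1⟩, ⟨?_, ca - y + c, ((D.hc _).1 D.y'fc).1, g4, c3⟩,
    ⟨?_, ca - y, D.y'fc.1, by rw [g3, Set.pair_comm], c2⟩⟩
  · rw [e2]; exact n3.symm
  · rw [← h]; exact n2

/-- the case `r = r'`, `l = l'` -/
theorem Dat.case3 (D : Dat P a c ca y r r' l l') (h : r = r') (h' : l = l') : l' = -r := by
  obtain ⟨w, haw, hw, ⟨A, hr⟩, -, ⟨B, V, hV, hl'⟩, -, -⟩ := D.coord
  have hrm : r ∈ P.act y := by rw [D.hr]; simp
  have hrm' : r ∈ P.act (y + c) := by rw [D.hr', h]; simp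
  have hlm : l' ∈ P.act (ca - y) := by rw [D.hl']; simp
  have hlm' : l' ∈ P.act (ca - y + c) := by rw [D.hl, h']; simp
  have e1 : ⟪r, c⟫ = 0 := by
    have := hrm'.2
    rw [inner_add_right, hrm.2] at this
    linarith
  have e2 : ⟪l', c⟫ = 0 := by
    have := hlm'.2
    rw [inner_add_right, hlm.2] at this
    linarith
  have e3 : ⟪a, c⟫ ≠ 0 := by
    intro h0
    have h1 := ((D.hc y).1 D.yfc).2
    rw [inner_neg_left, inner_add_right, D.yfc.2, h0, add_zero] at h1
    obtain ⟨z, hz⟩ := P.int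
    have h2 := hz a D.ha
    have h3 := hz (-a) D.ha'
    rw [inner_neg_left] at h3
    linarith
  rw [hr, inner_add_left, real_inner_smul_left, real_inner_smul_left, one_mul] at e1
  rw [hl', inner_add_left, real_inner_smul_left, real_inner_smul_left] at e2
  have e4 : (B - V * A) * ⟪a, c⟫ = 0 := by linear_combination e2 - V * e1
  have e5 : B = V * A := by
    have := (mul_eq_zero.1 e4).resolve_right e3
    linarith
  refine eq_of_det (a := a) (w := w) (P.unit _ hlm.1) (by rw [norm_neg]; exact P.unit _ hrm.1) hl'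
    (A' := -A) (W' := -1) (by rw [hr]; module) (by linarith) (by rw [e5]; ring)

/-- the data of a hexagonal belt -/
structure Hex (P : HPoly E) (y r r' l l' : E) : Prop where
  hl : l = -r
  hl' : l' = -r'
  ne : r ≠ r'
  z1 : ∃ z ∈ P.body, P.act z = {r, r'} ∧ Pool.FF57.Cong P y z
  z2 : ∃ z ∈ P.body, P.act z = {-r, -r'} ∧ Pool.FF57.Cong P y z
  tra : Tra P r ∨ Tra P r'

/-- HEXAGON: the case of a flag `{r, -l'}` -/
theorem Dat.hexa0 (D : Dat P a c ca y r r' l l') (h0 : l' ≠ -r)
    (hR : r = r' ∨ (∃ z ∈ P.body, P.act z = {r, r'} ∧ Csym P r ∧ Csym P r' ∧ Pool.FF57.Cong P y z) ∨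
      ∃ z ∈ P.body, P.act z = {-r, -r'} ∧ Tra P r ∧ Tra P r' ∧ Pool.FF57.Cong P y z)
    (hL : l' = l ∨ (∃ z ∈ P.body, P.act z = {l', l} ∧ Csym P l' ∧ Csym P l ∧
      Pool.FF57.Cong P (ca - y) z) ∨
      ∃ z ∈ P.body, P.act z = {-l', -l} ∧ Tra P l' ∧ Tra P l ∧ Pool.FF57.Cong P (ca - y) z)
    (hI : ∃ z ∈ P.body, P.act z = {r, -l'} ∧ Csym P r ∧ Tra P l' ∧ Pool.FF57.Cong P y z) :
    Hex P y r r' l l' := by
  obtain ⟨w, haw, hw, ⟨A1, cr⟩, ⟨A2, W2, hW2, cr'⟩, ⟨A3, W3, hW3, cl'⟩, ⟨A4, W4, hW4, cl⟩, n1, n2, n3⟩ :=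
    D.coord
  obtain ⟨zI, hzI, aI, -, ⟨hlN, t, ht⟩, cI⟩ := hI
  have hrm : r ∈ P.act y := by rw [D.hr]; simp
  have hrm' : r' ∈ P.act (y + c) := by rw [D.hr']; simp
  have hlm' : l' ∈ P.act (ca - y) := by rw [D.hl']; simp
  have hlm : l ∈ P.act (ca - y + c) := by rw [D.hl]; simp
  have ham : a ∈ P.act y := by rw [D.hr]; simp
  have ua : ‖a‖ = 1 := P.unit a D.ha
  have ur := P.unit _ hrm.1
  have ur' := P.unit _ hrm'.1
  have ul := P.unit _ hlm.1
  have ul' := P.unit _ hlm'.1
  have ca' : a = (1 : ℝ) • a + (0 : ℝ) • w := by module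
  have cna : -a = (-1 : ℝ) • a + (0 : ℝ) • w := by module
  have cnr : -r = (-A1) • a + (-1 : ℝ) • w := by rw [cr]; module
  have cnr' : -r' = (-A2) • a + (-W2) • w := by rw [cr']; module
  have cnl' : -l' = (-A3) • a + (-W3) • w := by rw [cl']; module
  have cnl : -l = (-A4) • a + (-W4) • w := by rw [cl]; module
  have hyc : y + c ∈ P.fc (-a) := (D.hc y).1 D.yfc
  have hy'c : ca - y + c ∈ P.fc (-a) := (D.hc _).1 D.y'fc
  -- ranges
  have R1 : ∀ {x : E} {A W : ℝ}, x ∈ P.N → x = A • a + W • w → 0 < W → 0 ≤ A1 * W - A * 1 := by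
    intro x A W hxN hx hW
    by_contra hc
    push Not at hc
    exact btw ua haw hw D.hy D.hr hxN ca' cr hx (by linarith) (by linarith) (by linarith)
  have R2 : ∀ {x : E} {A W : ℝ}, x ∈ P.N → x = A • a + W • w → 0 < W → 0 ≤ A * W2 - A2 * W := by
    intro x A W hxN hx hW
    by_contra hc
    push Not at hc
    exact btw ua haw hw hyc.1 (by rw [D.hr', Set.pair_comm]) hxN cr' cna hx (by linarith) (by linarith)
      (by linarith)
  have L1 : ∀ {x : E} {A W : ℝ}, x ∈ P.N → x = A • a + W • w → W < 0 → A3 * W - A * W3 ≤ 0 := by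
    intro x A W hxN hx hW
    by_contra hc
    push Not at hc
    exact btw ua haw hw D.y'fc.1 (by rw [D.hl', Set.pair_comm]) hxN cl' ca' hx (by linarith) (by linarith)
      (by linarith)
  have L2 : ∀ {x : E} {A W : ℝ}, x ∈ P.N → x = A • a + W • w → W < 0 → A * W4 - A4 * W ≤ 0 := by
    intro x A W hxN hx hW
    by_contra hc
    push Not at hc
    exact btw ua haw hw hy'c.1 D.hl hxN cna cl hx (by linarith) (by linarith) (by linarith)
  -- `r ≠ r'`
  have a1 := R1 hlN cnl' (by linarith)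
  have a2 := R2 hlN cnl' (by linarith)
  have hrr : r ≠ r' := by
    intro he
    have e1 := co_a ua haw cr
    have e2 := co_a ua haw cr'
    have e3 := co_w haw cr
    have e4 := co_w haw cr'
    rw [← he] at e2 e4
    have e5 : A1 = A2 := e1.symm.trans e2
    have e6 : (1 : ℝ) = W2 := mul_right_cancel₀ (real_inner_self_pos.2 hw).ne' (e3.symm.trans e4)
    rw [← e5, ← e6] at a2
    have e7 : -l' = r := eq_of_det (by rw [norm_neg]; exact ul') ur cnl' cr (by linarith) (by linarith)
    exact h0 (by rw [← e7, neg_neg])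
  have d1 : 0 < A1 * W2 - A2 * 1 := by
    have h1 := R1 hrm'.1 cr' hW2
    rcases h1.lt_or_eq with h2 | h2
    · exact h2
    · exact absurd (eq_of_det ur ur' cr cr' (by linarith) (by linarith)) hrr
  -- `l' = -r'`
  have hlr : l' = -r' := by
    rcases hR with h | ⟨z, hz, az, -, -, -⟩ | ⟨z, hz, az, -, -, -⟩
    · exact absurd h hrr
    · rcases a1.lt_or_eq with h1 | h1
      · rcases a2.lt_or_eq with h2 | h2
        · exact (btw ua haw hw hz az hlN cr cr' cnl' d1 (by linarith) (by linarith)).elim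
        · have := eq_of_det (by rw [norm_neg]; exact ul') ur' cnl' cr' (mul_pos (by linarith) hW2)
            (by linarith)
          rw [← this, neg_neg]
      · exact absurd (eq_of_det (x := -l') (x' := r) (by rw [norm_neg]; exact ul') ur cnl' cr (by linarith)
          (by linarith)) (fun h => h0 (by rw [← h, neg_neg]))
    · have hN : -r' ∈ P.N := by
        have : -r' ∈ P.act z := by rw [az]; simp
        exact this.1
      have h1 := L1 hN cnr' (by linarith)
      have := eq_of_det (x := -l') (x' := r') (by rw [norm_neg]; exact ul') ur' cnl' cr'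
        (mul_pos (by linarith) hW2) (by linarith)
      rw [← this, neg_neg]
  -- `l ≠ l'`
  have hll : l' ≠ l := by
    intro he
    have hm : l' ∈ P.act (ca - y + c) := by rw [he]; exact hlm
    have e1 := hm.2
    rw [inner_add_right, hlm'.2] at e1
    have s := D.neg.sgn_r
    rw [inner_neg_right] at s
    rw [hlr, inner_neg_left] at e1
    exact hrr (s.2 (by linarith)).symm
  have d2 : 0 < A4 * W3 - A3 * W4 := by
    have h1 := L1 hlm.1 cl hW4
    rcases h1.lt_or_eq with h2 | h2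
    · linarith
    · exact absurd (eq_of_det ul' ul cl' cl (mul_pos_of_neg_of_neg hW3 hW4) (by linarith)) hll
  -- the flag `{r, r'}`
  have aR : P.act zI = {r, r'} := by rw [aI, hlr, neg_neg]
  -- the translation `t` of `F_l'` onto `F_r'`
  have hmT : Mv P 1 t l' r' := by
    refine ⟨Or.inl rfl, hlm'.1, hrm'.1, by rw [hlr, one_smul, neg_neg], fun z => ?_⟩
    have h1 := ht z
    rw [hlr, neg_neg] at h1
    rw [one_smul, hlr]
    exact h1
  have hmT' : Mv P 1 (-t) r' l' := by
    refine ⟨Or.inl rfl, hrm'.1, hlm'.1, by rw [hlr, one_smul], fun z => ?_⟩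
    rw [one_smul]
    have h1 := hmT.iff (z + -t)
    rw [one_smul, neg_add_cancel_right] at h1
    exact h1.symm
  have hy'l : ca - y ∈ P.fc l' := ⟨D.y'fc.1, hlm'.2⟩
  have hycr : y + c ∈ P.fc r' := ⟨hyc.1, hrm'.2⟩
  obtain ⟨x1, α1, β1, k1, k2, k3, k4⟩ := act_step hmT D.y'fc.1 n2.symm D.hl'
  rw [one_smul] at k1
  have K1 : r = x1 := by
    refine Uni.flag_unique (a := r') (w := a) hzI (((hmT.iff _).1 hy'l).1 |> fun h => by
      rwa [one_smul] at h) (by rw [aR, Set.pair_comm]) k1 (A := 1 / W2) (W := (A1 * W2 - A2 * 1) / W2)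
      (A' := -β1) (W' := α1) ?_ ?_ (mul_pos (div_pos d1 hW2) k3)
    · have e1 : (1 / W2) * A2 + (A1 * W2 - A2 * 1) / W2 = A1 := by field_simp; ring
      have e2 : (1 / W2) * W2 = 1 := by field_simp
      rw [cr, cr']
      conv_lhs => rw [← e1]
      rw [show ((1 : ℝ) • w) = ((1 / W2) * W2) • w by rw [e2]]
      module
    · rw [k4, hlr, one_smul]
      module
  have aK : P.act (ca - y + t) = {r', r} := by rw [k1, ← K1]
  have hrδ : ⟪r, ca - y + t - y⟫ = 0 := by
    have h1 : r ∈ P.act (ca - y + t) := by rw [aK]; simp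
    rw [inner_sub_right, h1.2, hrm.2, sub_self]
  have haδ : ⟪a, ca - y + t - y⟫ ≠ 0 := by
    intro h1
    rw [inner_sub_right, ham.2] at h1
    have h2 : a ∈ P.act (ca - y + t) := ⟨D.ha, by linarith⟩
    rw [aK] at h2
    have hli := act_pair D.hy hrm ham D.hra
    rcases h2 with h2 | h2
    · have e1 := co_w haw ca'
      have e2 := co_w haw cr'
      rw [← h2, e1, zero_mul] at e2
      have := mul_pos hW2 (real_inner_self_pos.2 hw)
      linarith
    · exact D.hra h2.symm
  -- the point of the ridge `{l', l}`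
  obtain ⟨x2, α2, β2, m1, m2, m3, m4⟩ := act_step hmT' hyc.1 n1.symm D.hr'
  rw [one_smul] at m1
  have hzL : y + c + -t ∈ P.body := by
    have := ((hmT'.iff _).1 hycr).1
    rwa [one_smul] at this
  have hlr2 : l = -r := by
    rcases hL with h | ⟨z, hz, az, -, -, -⟩ | ⟨z, hz, az, -, -, -⟩
    · exact absurd h hll
    · -- `{l', l}` is a flag
      have K2 : l = x2 := by
        refine Uni.flag_unique (a := l') (w := a) hz hzL az m1 (A := W4 / W3)
          (W := (A4 * W3 - A3 * W4) / W3) (A' := -β2) (W' := -α2) ?_ ?_ ?_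
        · have hW30 : W3 ≠ 0 := hW3.ne
          have e1 : W4 / W3 * A3 + (A4 * W3 - A3 * W4) / W3 = A4 := by field_simp; ring
          have e2 : W4 / W3 * W3 = W4 := by field_simp
          rw [cl, cl']
          conv_lhs => rw [← e1]
          rw [show (W4 • w) = ((W4 / W3) * W3) • w by rw [e2]]
          module
        · rw [m4, hlr, one_smul]
          module
        · exact mul_pos_of_neg_of_neg (div_neg_of_pos_of_neg d2 hW3) (by linarith)
      have h1 : l ∈ P.act (y + c + -t) := by rw [m1, ← K2]; simp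
      have hlδ : ⟪l, ca - y + t - y⟫ = 0 := by
        have e1 := h1.2
        rw [← hlm.2] at e1
        have e2 : ca - y + t - y = (ca - y + c) - (y + c + -t) := by abel
        rw [e2, inner_sub_right, e1, sub_self]
      rw [cr, inner_add_left, real_inner_smul_left, real_inner_smul_left, one_mul] at hrδ
      rw [cl, inner_add_left, real_inner_smul_left, real_inner_smul_left] at hlδ
      have e4 : (A4 - W4 * A1) * ⟪a, ca - y + t - y⟫ = 0 := by linear_combination hlδ - W4 * hrδ
      have e5 : A4 = W4 * A1 := by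
        have := (mul_eq_zero.1 e4).resolve_right haδ
        linarith
      exact eq_of_det (a := a) (w := w) ul (by rw [norm_neg]; exact ur) cl cnr (by linarith)
        (by rw [e5]; ring)
    · -- `-l` is a facet normal
      have hN : -l ∈ P.N := by
        have : -l ∈ P.act z := by rw [az]; simp
        exact this.1
      have h1 := R1 hN cnl (by linarith)
      have h2 := R2 hN cnl (by linarith)
      rcases h1.lt_or_eq with h3 | h3
      · rcases h2.lt_or_eq with h4 | h4
        · exact (btw ua haw hw hzI aR hN cr cr' cnl d1 (by linarith) (by linarith)).elim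
        · have := eq_of_det (x := -l) (x' := r') (by rw [norm_neg]; exact ul) ur' cnl cr'
            (mul_pos (by linarith) hW2) (by linarith)
          exact absurd (by rw [hlr, ← this, neg_neg]) hll
      · have := eq_of_det (x := -l) (x' := r) (by rw [norm_neg]; exact ul) ur cnl cr (by linarith)
          (by linarith)
        rw [← this, neg_neg]
  have hLx : l ∈ P.act (y + c + -t) := by
    refine ⟨hlm.1, ?_⟩
    have e2 : y + c + -t = (ca - y + c) - (ca - y + t - y) := by abel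
    rw [e2, inner_sub_right, hlm.2, hlr2, inner_neg_left, hrδ]
    ring
  have aL : P.act (y + c + -t) = {l', l} := by
    rw [m1] at hLx
    rcases hLx with h1 | h1
    · exact absurd h1.symm hll
    · rw [m1]
      rw [mem_singleton_iff.1 h1]
  have c1 := cong_of_mvT D.mvT D.yfc
  have c4 := cong_trans c1 (cong_of_mvT hmT' hycr)
  refine ⟨hlr2, hlr, hrr, ⟨zI, hzI, aR, cI⟩, ⟨y + c + -t, hzL, by rw [aL, hlr, hlr2, Set.pair_comm], c4⟩,
    Or.inr ⟨by rw [← hlr]; exact hlm'.1, -t, fun z => ?_⟩⟩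
  rw [← hlr]
  have h1 := hmT'.iff z
  rw [one_smul] at h1
  exact h1

/-- a hexagonal belt -/
theorem Dat.hexb (D : Dat P a c ca y r r' l l') (H : Hex P y r r' l l') : Pool.FF57.Belt P a y := by
  obtain ⟨w, -, -, -, -, -, -, n1, n2, n3⟩ := D.coord
  have c1 := cong_of_mvT D.mvT D.yfc
  have c2 := cong_of_mvI D.mvI D.yfc
  have c3 := cong_trans c2 (cong_of_mvT D.mvT D.y'fc)
  obtain ⟨z1, hz1, a1, k1⟩ := H.z1
  obtain ⟨z2, hz2, a2, k2⟩ := H.z2
  refine Or.inr ⟨r, r', ⟨D.hra.symm, y, D.hy, D.hr, cong_refl y⟩, ⟨H.ne, z1, hz1, a1, k1⟩,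
    ⟨n1, y + c, ((D.hc y).1 D.yfc).1, by rw [D.hr', Set.pair_comm], c1⟩,
    ⟨?_, ca - y + c, ((D.hc _).1 D.y'fc).1, by rw [D.hl, H.hl], c3⟩,
    ⟨fun h => H.ne (neg_injective h), z2, hz2, a2, k2⟩,
    ⟨?_, ca - y, D.y'fc.1, by rw [D.hl', H.hl', Set.pair_comm], c2⟩⟩
  · rw [← H.hl]; exact n3.symm
  · rw [← H.hl']; exact n2

end Pool.CC95
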