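import Pool.Agent.FF25.Step
import Pool.Agent.FF79.NecE
import Pool.Agent.FF85.NecS

set_option autoImplicit false

/-!
# CC95/Def: the tiles around a ridge point of a facet-to-facet tiling, with their real outer normals

`At P T p τ n n'`: the tile `τ` has `p` in the relative interior of a ridge; `n`, `n'` are the REAL outer normals of
the two facets (own normals `τ.1 • n`, `τ.1 • n'`).

PLAN (no angles, no cycle of tiles). `a`, `-a` normals of facets, `w` orthogonal to `a` in the plane of the ridge.
(1) `At.ord`: for every tile at `p` the numbers `⟪n, w⟫`, `⟪n', w⟫` do not have opposite signs: the wedge of the tile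
contains `w` or `-w` (otherwise `a` or `-a` would be strictly inside the arc of the flag).
(2) `wall`: the two tiles `τ`, `σ` at a wall with normals `a`, `-a` (other real normals `r`, `s`, on the side of `w`)
have `-w` in the interior of their union, so the tiles `ρ` behind `r` and `ρ'` behind `s` contain `w`; so `ρ = ρ'`, with
real normals `-r`, `-s`, or both have a wall on the ray of `w`: normals `-r, a` and `-s, -a`.
-/

open Set Metric
open scoped RealInnerProductSpace

namespace Pool.CC95

open Pool.FF24 Pool.FF25 Pool.FF56

variable {E : Type*} [NormedAddCommGroup E] [InnerProductSpace ℝ E]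

/-- the tile `τ` has `p` in the relative interior of a ridge; `n`, `n'` are the real outer normals of its facets -/
structure At (P : HPoly E) (T : Set (ℝ × E)) (p : E) (τ : ℝ × E) (n n' : E) : Prop where
  mem : τ ∈ T
  body : crd τ p ∈ P.body
  ne : n ≠ n'
  act : P.act (crd τ p) = {τ.1 • n, τ.1 • n'}

/-- the tile `σ` lies behind the facet of the tile `τ` with the real normal `n`, at the ridge of `p` -/
structure Beh (P : HPoly E) (p : E) (τ σ : ℝ × E) (n : E) : Prop where
  ne : σ ≠ τ
  typ : (σ.1 = -τ.1 ∧ Csym P (τ.1 • n)) ∨ (σ.1 = τ.1 ∧ Tra P (τ.1 • n))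
  rdg : X σ '' P.mf (crd σ p) = X τ '' P.mf (crd τ p)
  fct : X σ '' P.fc (-(σ.1 • n)) = X τ '' P.fc (τ.1 • n)

variable {P : HPoly E} {T : Set (ℝ × E)} {p : E} {τ σ : ℝ × E} {n n' m m' : E}

theorem At.symm (h : At P T p τ n n') : At P T p τ n' n :=
  ⟨h.mem, h.body, h.ne.symm, by rw [h.act, Set.pair_comm]⟩

end Pool.CC95
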