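import Pool.Agent.CC95.Fin
import Pool.Agent.FX65.Dsp

set_option autoImplicit false

/-!
# CC95/Disp: displacement of the centre for the facets in the belts of a varying facet

`C = ca + c` (`F_a = ca - F_a`, `F_(-a) = F_a + c`). `disp_a`, `disp_para`, `disp_hex`, `ctr_lt`.
-/

open Set Metric
open scoped RealInnerProductSpace

namespace Pool.CC95

open Pool.FF24 Pool.FF25 Pool.FF56 Pool.FF57 Pool.FX65

variable {E : Type*} [NormedAddCommGroup E] [InnerProductSpace ℝ E]
variable {P : HPoly E} {T : Set (ℝ × E)}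
variable {a c ca y r r' l l' : E}

theorem mf_act {y z : E} (hy : y ∈ P.body) (hz : z ∈ P.body) (h : P.act y = P.act z) :
    P.mf y = P.mf z := by rw [mf_eq hy, mf_eq hz, h]

theorem shift_inj {y : E} (hy : y ∈ P.body) {s t : E}
    (h : (fun z => z + s) '' P.mf y = (fun z => z + t) '' P.mf y) : s = t := by
  refine sub_eq_zero.1 (tr_zero ⟨y, mf_self hy⟩ (mf_bdd y) fun z hz => ?_)
  have h1 : z + s ∈ (fun z => z + t) '' P.mf y := by
    rw [← h]
    exact ⟨z, hz, rfl⟩
  obtain ⟨z', hz', h2⟩ := h1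
  have h3 : z + (s - t) = z' := by
    have h2' : z' + t = z + s := h2
    rw [← add_sub_assoc, ← h2', add_sub_cancel_right]
  rw [h3]
  exact hz'

theorem refl_inj {y : E} (hy : y ∈ P.body) {s t : E}
    (h : (fun z => s - z) '' P.mf y = (fun z => t - z) '' P.mf y) : s = t := by
  refine (sub_eq_zero.1 (tr_zero ⟨y, mf_self hy⟩ (mf_bdd y) fun z hz => ?_)).symm
  have h1 : s - z ∈ (fun z => t - z) '' P.mf y := by
    rw [← h]
    exact ⟨z, hz, rfl⟩
  obtain ⟨z', hz', h2⟩ := h1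
  have h2' : t - z' = s - z := h2
  have h3 : z + (t - s) = z' := by
    have : z + (t - s) = t - (s - z) := by abel
    rw [this, ← h2']
    abel
  rw [h3]
  exact hz'

theorem mf_I {b cb y1 : E} (hb : b ∈ P.N) (hcb : ∀ z ∈ P.fc b, cb - z ∈ P.fc b) (hy1 : y1 ∈ P.fc b) :
    (fun z => cb - z) '' P.mf y1 = P.mf (cb - y1) := by
  have mI : Mv P (-1) cb b b := ⟨Or.inr rfl, hb, hb, by rw [neg_one_smul, neg_neg], fun z => by
    have e : (-1 : ℝ) • z + cb = cb - z := by module
    rw [e]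
    constructor
    · exact hcb z
    · intro h
      have := hcb _ h
      rwa [sub_sub_cancel] at this⟩
  have h := mf_step mI hy1
  have e : (-1 : ℝ) • y1 + cb = cb - y1 := by module
  rw [e] at h
  rw [← h]
  exact Set.image_congr fun z _ => by module

theorem mf_T {b t y1 : E} (hb : b ∈ P.N) (hb' : -b ∈ P.N) (ht : ∀ z : E, z ∈ P.fc b ↔ z + t ∈ P.fc (-b))
    (hy1 : y1 ∈ P.fc b) : (fun z => z + t) '' P.mf y1 = P.mf (y1 + t) := by
  have mT : Mv P 1 t b (-b) :=
    ⟨Or.inl rfl, hb, hb', by rw [one_smul], fun z => by rw [one_smul]; exact ht z⟩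
  have h := mf_step mT hy1
  rw [one_smul] at h
  rw [← h]
  exact Set.image_congr fun z _ => by rw [one_smul]

/-- a point reflection of the facet `b` exchanges its two ridges in a belt -/
theorem other_I {b cb y1 y2 u v : E} (hcb : ∀ z ∈ P.fc b, cb - z ∈ P.fc b) (hy1 : y1 ∈ P.body)
    (h1 : P.act y1 = {b, u}) (hbu : b ≠ u) (hy2 : y2 ∈ P.body) (h2 : P.act y2 = {b, v}) {A W : ℝ}
    (hv : v = A • b + W • u) (hW : W < 0) : (fun z => cb - z) '' P.mf y1 = P.mf y2 := by
  have hb : b ∈ P.act y1 := by rw [h1]; simp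
  have mI : Mv P (-1) cb b b := ⟨Or.inr rfl, hb.1, hb.1, by rw [neg_one_smul, neg_neg], fun z => by
    have e : (-1 : ℝ) • z + cb = cb - z := by module
    rw [e]
    constructor
    · exact hcb z
    · intro h
      have := hcb _ h
      rwa [sub_sub_cancel] at this⟩
  have hyf : y1 ∈ P.fc b := ⟨hy1, hb.2⟩
  obtain ⟨x, α, β, k1, k2, k3, k4⟩ := act_step mI hy1 hbu.symm (by rw [h1, Set.pair_comm])
  have e : (-1 : ℝ) • y1 + cb = cb - y1 := by module
  rw [e] at k1
  have hx : x = v := Uni.flag_unique (a := b) (w := u) (hcb _ hyf).1 hy2 k1 h2 (A := -β) (W := -α)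
    (A' := A) (W' := W) (by rw [k4]; module) hv (mul_pos_of_neg_of_neg (by linarith) hW)
  rw [mf_I hb.1 hcb hyf]
  exact mf_act (hcb _ hyf).1 hy2 (by rw [k1, h2, hx])

/-- a translation of the facet `b` onto the facet `-b` -/
theorem other_T {b t y1 y2 u v : E} (ht : ∀ z : E, z ∈ P.fc b ↔ z + t ∈ P.fc (-b)) (hy1 : y1 ∈ P.body)
    (h1 : P.act y1 = {b, u}) (hbu : b ≠ u) (hy2 : y2 ∈ P.body) (h2 : P.act y2 = {-b, v}) {A W : ℝ}
    (hv : v = A • b + W • u) (hW : 0 < W) : (fun z => z + t) '' P.mf y1 = P.mf y2 := by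
  have hb : b ∈ P.act y1 := by rw [h1]; simp
  have hb' : -b ∈ P.act y2 := by rw [h2]; simp
  have mT : Mv P 1 t b (-b) :=
    ⟨Or.inl rfl, hb.1, hb'.1, by rw [one_smul], fun z => by rw [one_smul]; exact ht z⟩
  have hyf : y1 ∈ P.fc b := ⟨hy1, hb.2⟩
  obtain ⟨x, α, β, k1, k2, k3, k4⟩ := act_step mT hy1 hbu.symm (by rw [h1, Set.pair_comm])
  rw [one_smul] at k1
  have hx : x = v := Uni.flag_unique (a := -b) (w := u) ((ht _).1 hyf).1 hy2 k1 h2 (A := -β) (W := α)
    (A' := -A) (W' := W) (by rw [k4]; module) (by rw [hv]; module) (mul_pos k3 hW)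
  rw [mf_T hb.1 hb'.1 ht hyf]
  exact mf_act ((ht _).1 hyf).1 hy2 (by rw [k1, h2, hx])

theorem neg_tr {b t : E} (ht : ∀ z : E, z ∈ P.fc b ↔ z + t ∈ P.fc (-b)) :
    ∀ z : E, z ∈ P.fc (-b) ↔ z + -t ∈ P.fc (- -b) := fun z => by
  rw [neg_neg, ht (z + -t), neg_add_cancel_right]

theorem fc_shift {b : E} (hb : b ∈ P.N) {s : E} (h : ∀ z ∈ P.fc b, z + s ∈ P.fc b) : s = 0 :=
  tr_zero (fc_ne' P hb) (fc_bdd' P b) h

/-- the centre of a facet is unique -/
theorem center_unique {b s t : E} (hb : b ∈ P.N) (h : ∀ z ∈ P.fc b, s - z ∈ P.fc b)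
    (h' : ∀ z ∈ P.fc b, t - z ∈ P.fc b) : s = t := by
  refine sub_eq_zero.1 (fc_shift hb fun z hz => ?_)
  have := h _ (h' z hz)
  have e : s - (t - z) = z + (s - t) := by abel
  rwa [e] at this

/-- the translation onto the opposite facet is unique -/
theorem tr_unique' {b s t : E} (hb : b ∈ P.N) (h : ∀ z : E, z ∈ P.fc b ↔ z + s ∈ P.fc (-b))
    (h' : ∀ z : E, z ∈ P.fc b ↔ z + t ∈ P.fc (-b)) : s = t := by
  refine sub_eq_zero.1 (fc_shift hb fun z hz => ?_)
  rw [h']
  have e : z + (s - t) + t = z + s := by abel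
  rw [e]
  exact (h z).1 hz

theorem Dat.yCfc (D : Dat P a c ca y r r' l l') : ca - y + c ∈ P.fc (-a) := (D.hc _).1 D.y'fc

theorem Dat.mf1 (D : Dat P a c ca y r r' l l') : P.mf (y + c) = (fun z => z + c) '' P.mf y :=
  (mf_T D.ha D.ha' D.hc D.yfc).symm

theorem Dat.mf2 (D : Dat P a c ca y r r' l l') : P.mf (ca - y) = (fun z => ca - z) '' P.mf y :=
  (mf_I D.ha D.hca D.yfc).symm

theorem Dat.mf3 (D : Dat P a c ca y r r' l l') :
    P.mf (ca - y + c) = (fun z => ca + c - z) '' P.mf y := by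
  rw [← mf_T D.ha D.ha' D.hc D.y'fc, D.mf2, Set.image_image]
  exact Set.image_congr fun z _ => by abel

/-- the displacement of `a` and `-a` -/
theorem disp_a (ha : a ∈ P.N) (ha' : -a ∈ P.N) (hca : ∀ z ∈ P.fc a, ca - z ∈ P.fc a)
    (hc : ∀ z : E, z ∈ P.fc a ↔ z + c ∈ P.fc (-a)) :
    Pool.FX65.Dsp P (ca + c) a (-c) ∧ Pool.FX65.Dsp P (ca + c) (-a) c := by
  have hb : ∀ z, z ∈ P.fc (-a) ↔ z - c ∈ P.fc a := fun z => by rw [hc (z - c), sub_add_cancel]
  have hcn : ∀ z ∈ P.fc (-a), ca + (2 : ℝ) • c - z ∈ P.fc (-a) := fun z hz => by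
    have h4 := hca _ ((hb z).1 hz)
    rw [hb]
    have e : ca + (2 : ℝ) • c - z - c = ca - (z - c) := by module
    rw [e]
    exact h4
  refine ⟨⟨fun cb h => ?_, fun t h => ?_⟩, ⟨fun cb h => ?_, fun t h => ?_⟩⟩
  · rw [center_unique ha h hca]; abel
  · rw [tr_unique' ha h hc]
  · rw [center_unique ha' h hcn]; module
  · rw [tr_unique' ha' h (neg_tr hc), neg_neg]

/-- the displacement in a PARALLELOGRAM belt -/
theorem disp_para (D : Dat P a c ca y r r' l l') (h : l' = -r) : r = r' ∧ l = -r ∧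
    ∃ W : E, Pool.FX65.Dsp P (ca + c) r W ∧ Pool.FX65.Dsp P (ca + c) (-r) (-W) := by
  have s1 := D.sgn_r
  have s2 := D.swap.sgn_r
  rw [h, inner_neg_left] at s2
  have e1 : r = r' := s1.2 (by linarith [s1.1, s2.1])
  have e2 : -r = l := s2.2 (by linarith [s1.1, s2.1])
  refine ⟨e1, e2.symm, ?_⟩
  have hyc : y + c ∈ P.body := ((D.hc y).1 D.yfc).1
  have g1 : P.act y = {r, a} := by rw [D.hr, Set.pair_comm]
  have g2 : P.act (y + c) = {r, -a} := by rw [D.hr', e1, Set.pair_comm]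
  have g3 : P.act (ca - y) = {-r, a} := by rw [D.hl', h, Set.pair_comm]
  have g4 : P.act (ca - y + c) = {-r, -a} := by rw [D.hl, e2, Set.pair_comm]
  have hna : -r ≠ a := fun h => D.swap.hra (by rw [← h]; assumption)
  have hrN : r ∈ P.N := by
    have : r ∈ P.act y := by rw [g1]; simp
    exact this.1
  have hrN' : -r ∈ P.N := by
    have : -r ∈ P.act (ca - y) := by rw [g3]; simp
    exact this.1
  -- the three relations
  have q1 : ∀ cb, (∀ z ∈ P.fc r, cb - z ∈ P.fc r) →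
      P.mf y = (fun z => cb - c - z) '' P.mf y := fun cb hcb => by
    have h1 := other_I hcb D.hy g1 D.hra hyc g2 (A := 0) (W := -1) (by module) (by norm_num)
    rw [D.mf1] at h1
    have h2 := congrArg (fun F => (fun z => z - c) '' F) h1
    simp only [Set.image_image, add_sub_cancel_right, Set.image_id'] at h2
    conv_lhs => rw [← h2]
    exact Set.image_congr fun z _ => by abel
  have q2 : ∀ cb, (∀ z ∈ P.fc (-r), cb - z ∈ P.fc (-r)) →
      P.mf y = (fun z => ca + c + ca - cb - z) '' P.mf y := fun cb hcb => by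
    have h1 := other_I hcb D.y'fc.1 g3 hna D.yCfc.1 g4 (A := 0) (W := -1) (by module) (by norm_num)
    rw [D.mf2, D.mf3, Set.image_image] at h1
    have h2 := congrArg (fun F => (fun z => z - (cb - ca)) '' F) h1
    simp only [Set.image_image] at h2
    have e : (fun x => cb - (ca - x) - (cb - ca)) '' P.mf y = P.mf y := by
      have : (fun x : E => cb - (ca - x) - (cb - ca)) = fun x => x := by
        funext x
        abel
      rw [this, Set.image_id']
    rw [e] at h2
    conv_lhs => rw [h2]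
    exact Set.image_congr fun z _ => by abel
  have q3 : ∀ t, (∀ z : E, z ∈ P.fc r ↔ z + t ∈ P.fc (-r)) →
      P.mf y = (fun z => ca - t - z) '' P.mf y := fun t ht => by
    have h1 := other_T ht D.hy g1 D.hra D.y'fc.1 g3 (A := 0) (W := 1) (by module) (by norm_num)
    rw [D.mf2] at h1
    have h2 := congrArg (fun F => (fun z => z - t) '' F) h1
    simp only [Set.image_image, add_sub_cancel_right, Set.image_id'] at h2
    conv_lhs => rw [h2]
    exact Set.image_congr fun z _ => by abel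
  by_cases hκ : ∃ κ : E, P.mf y = (fun z => κ - z) '' P.mf y
  · obtain ⟨κ, hκ⟩ := hκ
    refine ⟨κ - ca, ⟨fun cb hcb => ?_, fun t ht => ?_⟩, ⟨fun cb hcb => ?_, fun t ht => ?_⟩⟩
    · have := refl_inj D.hy (hκ.symm.trans (q1 cb hcb))
      rw [this]; abel
    · have := refl_inj D.hy (hκ.symm.trans (q3 t ht))
      rw [this]; abel
    · have := refl_inj D.hy (hκ.symm.trans (q2 cb hcb))
      rw [this]; abel
    · have h1 := neg_tr ht
      rw [neg_neg] at h1
      have := refl_inj D.hy (hκ.symm.trans (q3 _ h1))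
      rw [this]; abel
  · refine ⟨0, ⟨fun cb hcb => absurd ⟨_, q1 cb hcb⟩ hκ, fun t ht => absurd ⟨_, q3 t ht⟩ hκ⟩,
      ⟨fun cb hcb => absurd ⟨_, q2 cb hcb⟩ hκ, fun t ht => ?_⟩⟩
    have h1 := neg_tr ht
    rw [neg_neg] at h1
    exact absurd ⟨_, q3 _ h1⟩ hκ

/-- the displacement in a HEXAGONAL belt: `W_r = -s`, `W_r' = c - s`, `W_a = -c` -/
theorem disp_hex (D : Dat P a c ca y r r' l l') (H : Hex P y r r' l l') : ∃ s : E,
    Pool.FX65.Dsp P (ca + c) r (-s) ∧ Pool.FX65.Dsp P (ca + c) (-r) s ∧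
      Pool.FX65.Dsp P (ca + c) r' (c - s) ∧ Pool.FX65.Dsp P (ca + c) (-r') (s - c) ∧
      (∀ z ∈ P.body, P.act z = {-r, -r'} → P.mf z = (fun z => z + s) '' P.mf y) ∧
      ∀ z ∈ P.body, P.act z = {r, r'} → P.mf z = (fun z => ca + c - s - z) '' P.mf y := by
  obtain ⟨w, haw, hw, ⟨A1, cr⟩, ⟨A2, W2, hW2, cr'⟩, -, -, n1, n2, n3⟩ := D.coord
  obtain ⟨zI, hzI, aI, -⟩ := H.z1
  obtain ⟨zL, hzL, aL, -⟩ := H.z2
  have hrm : r ∈ P.act y := by rw [D.hr]; simp
  have hrm' : r' ∈ P.act (y + c) := by rw [D.hr']; simp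
  have ur := P.unit _ hrm.1
  have ur' := P.unit _ hrm'.1
  have ua : ‖a‖ = 1 := P.unit a D.ha
  have hyc : y + c ∈ P.fc (-a) := (D.hc y).1 D.yfc
  have cna : -a = (-1 : ℝ) • a + (0 : ℝ) • w := by module
  have d1 : 0 < A1 * W2 - A2 * 1 := by
    by_contra hc
    push Not at hc
    rcases hc.lt_or_eq with h2 | h2
    · exact btw ua haw hw hyc.1 (by rw [D.hr', Set.pair_comm]) hrm.1 cr' cna cr (by linarith) (by linarith)
        (by linarith)
    · exact H.ne (eq_of_det ur ur' cr cr' (by linarith) (by linarith))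
  have W20 : W2 ≠ 0 := hW2.ne'
  -- `r'` in terms of `r`, `a`; `r` in terms of `r'`, `a`
  have f1 : r' = W2 • r + (-(A1 * W2 - A2 * 1)) • a := by rw [cr, cr']; module
  have f2 : r = (1 / W2) • r' + ((A1 * W2 - A2 * 1) / W2) • a := by
    have e1 : (1 / W2) * A2 + (A1 * W2 - A2 * 1) / W2 = A1 := by field_simp; ring
    have e2 : (1 / W2) * W2 = 1 := by field_simp
    rw [cr, cr']
    conv_lhs => rw [← e1]
    rw [show ((1 : ℝ) • w) = ((1 / W2) * W2) • w by rw [e2]]
    module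
  have d2 : 0 < (A1 * W2 - A2 * 1) / W2 := div_pos d1 hW2
  -- the acts
  have g1 : P.act y = {r, a} := by rw [D.hr, Set.pair_comm]
  have g2 : P.act (y + c) = {r', -a} := by rw [D.hr', Set.pair_comm]
  have g3 : P.act (ca - y) = {-r', a} := by rw [D.hl', H.hl', Set.pair_comm]
  have g4 : P.act (ca - y + c) = {-r, -a} := by rw [D.hl, H.hl, Set.pair_comm]
  have aI' : P.act zI = {r', r} := by rw [aI, Set.pair_comm]
  have aL' : P.act zL = {-r', -r} := by rw [aL, Set.pair_comm]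
  have m1 : -r' ≠ a := by rw [← H.hl']; exact n2
  have m2 : -r ≠ -a := by rw [← H.hl]; exact n3
  have hrN : r ∈ P.N := hrm.1
  have hrN' : r' ∈ P.N := hrm'.1
  have hnr : -r ∈ P.N := by
    have : -r ∈ P.act zL := by rw [aL]; simp
    exact this.1
  have hnr' : -r' ∈ P.N := by
    have : -r' ∈ P.act zL := by rw [aL]; simp
    exact this.1
  -- reflections
  have I1 : ∀ cb, (∀ z ∈ P.fc r, cb - z ∈ P.fc r) → (fun z => cb - z) '' P.mf y = P.mf zI := fun cb h =>
    other_I h D.hy g1 D.hra hzI aI f1 (by linarith)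
  have I2 : ∀ cb, (∀ z ∈ P.fc (-r), cb - z ∈ P.fc (-r)) →
      (fun z => cb - (ca + c) + z) '' P.mf y = P.mf zL := fun cb h => by
    have := other_I h D.yCfc.1 g4 m2 hzL aL (A := W2) (W := -(A1 * W2 - A2 * 1))
      (by conv_lhs => rw [f1]
          module) (by linarith)
    rw [← this, D.mf3, Set.image_image]
    exact Set.image_congr fun z _ => by abel
  have I3 : ∀ cb, (∀ z ∈ P.fc r', cb - z ∈ P.fc r') → (fun z => cb - c - z) '' P.mf y = P.mf zI :=
    fun cb h => by
    have := other_I h hyc.1 g2 n1 hzI aI' (A := 1 / W2) (W := -((A1 * W2 - A2 * 1) / W2))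
      (by conv_lhs => rw [f2]
          module) (by linarith)
    rw [← this, D.mf1, Set.image_image]
    exact Set.image_congr fun z _ => by abel
  have I4 : ∀ cb, (∀ z ∈ P.fc (-r'), cb - z ∈ P.fc (-r')) →
      (fun z => cb - ca + z) '' P.mf y = P.mf zL := fun cb h => by
    have := other_I h D.y'fc.1 g3 m1 hzL aL' (A := 1 / W2) (W := -((A1 * W2 - A2 * 1) / W2))
      (by conv_lhs => rw [f2]
          module) (by linarith)
    rw [← this, D.mf2, Set.image_image]
    exact Set.image_congr fun z _ => by abel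
  -- translations
  have T1 : ∀ t, (∀ z : E, z ∈ P.fc r ↔ z + t ∈ P.fc (-r)) →
      (fun z => z + t) '' P.mf y = P.mf zL := fun t h =>
    other_T h D.hy g1 D.hra hzL aL (A := -W2) (W := A1 * W2 - A2 * 1)
      (by conv_lhs => rw [f1]
          module) d1
  have T3 : ∀ t, (∀ z : E, z ∈ P.fc r' ↔ z + t ∈ P.fc (-r')) →
      (fun z => z + (c + t)) '' P.mf y = P.mf zL := fun t h => by
    have := other_T h hyc.1 g2 n1 hzL aL' (A := -(1 / W2)) (W := (A1 * W2 - A2 * 1) / W2)
      (by conv_lhs => rw [f2]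
          module) d2
    rw [← this, D.mf1, Set.image_image]
    exact Set.image_congr fun z _ => by abel
  have T2 : ∀ t, (∀ z : E, z ∈ P.fc (-r) ↔ z + t ∈ P.fc (- -r)) →
      (fun z => ca + c + t - z) '' P.mf y = P.mf zI := fun t h => by
    have := other_T h D.yCfc.1 g4 m2 hzI (by rw [neg_neg]; exact aI) (A := -W2)
      (W := A1 * W2 - A2 * 1)
      (by conv_lhs => rw [f1]
          module) d1
    rw [← this, D.mf3, Set.image_image]
    exact Set.image_congr fun z _ => by abel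
  have T4 : ∀ t, (∀ z : E, z ∈ P.fc (-r') ↔ z + t ∈ P.fc (- -r')) →
      (fun z => ca + t - z) '' P.mf y = P.mf zI := fun t h => by
    have := other_T h D.y'fc.1 g3 m1 hzI (by rw [neg_neg]; exact aI') (A := -(1 / W2))
      (W := (A1 * W2 - A2 * 1) / W2)
      (by conv_lhs => rw [f2]
          module) d2
    rw [← this, D.mf2, Set.image_image]
    exact Set.image_congr fun z _ => by abel
  -- the vector `s`
  obtain ⟨s, hs1, hs2⟩ : ∃ s : E, P.mf zL = (fun z => z + s) '' P.mf y ∧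
      P.mf zI = (fun z => ca + c - s - z) '' P.mf y := by
    rcases H.tra with ⟨-, t, ht⟩ | ⟨-, t, ht⟩
    · refine ⟨t, (T1 t ht).symm, ?_⟩
      rw [← T2 (-t) (neg_tr ht)]
      exact Set.image_congr fun z _ => by abel
    · refine ⟨c + t, (T3 t ht).symm, ?_⟩
      rw [← T4 (-t) (neg_tr ht)]
      exact Set.image_congr fun z _ => by abel
  refine ⟨s, ⟨fun cb h => ?_, fun t h => ?_⟩, ⟨fun cb h => ?_, fun t h => ?_⟩, ⟨fun cb h => ?_, fun t h => ?_⟩,
    ⟨fun cb h => ?_, fun t h => ?_⟩, fun z hz az => ?_, fun z hz az => ?_⟩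
  · have := refl_inj D.hy ((I1 cb h).trans hs2)
    rw [this]; abel
  · have := shift_inj D.hy ((T1 t h).trans hs1)
    rw [this]
  · have h1 : (fun z => z + (cb - (ca + c))) '' P.mf y = (fun z => z + s) '' P.mf y := by
      rw [← hs1, ← I2 cb h]
      exact Set.image_congr fun z _ => by abel
    exact shift_inj D.hy h1
  · have := refl_inj D.hy ((T2 t h).trans hs2)
    have h2 : t = -s := by
      have h3 : ca + c + t = ca + c + -s := by rw [this]; abel
      exact add_left_cancel h3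
    rw [h2, neg_neg]
  · have := refl_inj D.hy ((I3 cb h).trans hs2)
    have h3 : cb = ca + c - s + c := by rw [← this]; abel
    rw [h3]; abel
  · have := shift_inj D.hy ((T3 t h).trans hs1)
    rw [← this]; abel
  · have h1 : (fun z => z + (cb - ca)) '' P.mf y = (fun z => z + s) '' P.mf y := by
      rw [← hs1, ← I4 cb h]
      exact Set.image_congr fun z _ => by abel
    rw [← shift_inj D.hy h1]; abel
  · have := refl_inj D.hy ((T4 t h).trans hs2)
    have h2 : t = c - s := by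
      have h3 : ca + t = ca + (c - s) := by rw [this]; abel
      exact add_left_cancel h3
    rw [h2]; abel
  · rw [← hs1]
    exact mf_act hz hzL (by rw [az, aL])
  · rw [← hs2]
    exact mf_act hz hzI (by rw [az, aI])

/-- the point `(ca + c) / 2` is an interior point -/
theorem ctr_lt (ha : a ∈ P.N) (ha' : -a ∈ P.N) (hca : ∀ z ∈ P.fc a, ca - z ∈ P.fc a)
    (hc : ∀ z : E, z ∈ P.fc a ↔ z + c ∈ P.fc (-a)) : ∀ u ∈ P.N, ⟪u, (1 / 2 : ℝ) • (ca + c)⟫ < P.h u := by
  intro u hu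
  obtain ⟨z, hz, hz'⟩ := P.real a ha
  have hza : z ∈ P.fc a := ⟨hz, (hz' a ha).2 rfl⟩
  have h1 := (hc _).1 (hca z hza)
  have h2 : ⟪u, z⟫ ≤ P.h u := hz u hu
  have h3 : ⟪u, ca - z + c⟫ ≤ P.h u := h1.1 u hu
  have e : (1 / 2 : ℝ) • (ca + c) = (1 / 2 : ℝ) • (z + (ca - z + c)) := by
    congr 1
    abel
  rw [e, real_inner_smul_right, inner_add_right]
  by_cases hua : u = a
  · subst hua
    have h4 := h1.2
    rw [inner_neg_left] at h4
    obtain ⟨q, hq⟩ := P.int
    have h5 := hq u hu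
    have h7 := hq (-u) ha'
    rw [inner_neg_left] at h7
    linarith
  · have h4 : ⟪u, z⟫ ≠ P.h u := fun h => hua ((hz' u hu).1 h)
    have h5 : ⟪u, z⟫ < P.h u := lt_of_le_of_ne h2 h4
    linarith

end Pool.CC95
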