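import Pool.Agent.CC95.Cas

set_option autoImplicit false

/-!
# CC95/Fin: a ridge of a varying facet lies in a symmetric belt of 4 or 6 facets
-/

open Set Metric
open scoped RealInnerProductSpace

namespace Pool.CC95

open Pool.FF24 Pool.FF25 Pool.FF56 Pool.FF57

variable {E : Type*} [NormedAddCommGroup E] [InnerProductSpace ℝ E]
variable {P : HPoly E} {T : Set (ℝ × E)}
variable {a c ca y r r' l l' : E}

theorem WT.neg (h : WT P T a) : WT P T (-a) := by
  obtain ⟨τ, hτ, σ, hσ, hs, hF⟩ := h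
  exact ⟨σ, hσ, τ, hτ, hs.symm, by rw [neg_neg]; exact hF.symm⟩

theorem fl_cong {y y' u v : E} (h : Cong P y y') (k : Fl P y' u v) : Fl P y u v := by
  obtain ⟨h1, z, hz, az, cz⟩ := k
  exact ⟨h1, z, hz, az, cong_trans h cz⟩

theorem belt_cong {y y' : E} (h : Cong P y y') (k : Pool.FF57.Belt P a y') : Pool.FF57.Belt P a y := by
  rcases k with ⟨b, k1, k2, k3, k4⟩ | ⟨b, w, k1, k2, k3, k4, k5, k6⟩
  · exact Or.inl ⟨b, fl_cong h k1, fl_cong h k2, fl_cong h k3, fl_cong h k4⟩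
  · exact Or.inr ⟨b, w, fl_cong h k1, fl_cong h k2, fl_cong h k3, fl_cong h k4, fl_cong h k5, fl_cong h k6⟩

theorem belt_neg (k : Pool.FF57.Belt P (-a) y) : Pool.FF57.Belt P a y := by
  rcases k with ⟨b, k1, k2, k3, k4⟩ | ⟨b, w, k1, k2, k3, k4, k5, k6⟩
  · rw [neg_neg] at k2 k3
    exact Or.inl ⟨-b, k3, k4, by rw [neg_neg]; exact k1, by rw [neg_neg]; exact k2⟩
  · rw [neg_neg] at k3 k4
    exact Or.inr ⟨-b, -w, k4, k5, k6, by rw [neg_neg]; exact k1, by rw [neg_neg, neg_neg]; exact k2,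
      by rw [neg_neg]; exact k3⟩

theorem tra_neg {u : E} (hu : u ∈ P.N) (h : Tra P u) : Tra P (-u) := by
  obtain ⟨h1, t, ht⟩ := h
  refine ⟨by rw [neg_neg]; exact hu, -t, fun z => ?_⟩
  rw [neg_neg, ht (z + -t), neg_add_cancel_right]

theorem hex_cong {y y' : E} (h : Cong P y y') (H : Hex P y' r r' l l') : Hex P y r r' l l' := by
  obtain ⟨h1, h2, h3, ⟨z1, k1, k2, k3⟩, ⟨z2, m1, m2, m3⟩, h4⟩ := H
  exact ⟨h1, h2, h3, ⟨z1, k1, k2, cong_trans h k3⟩, ⟨z2, m1, m2, cong_trans h m3⟩, h4⟩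

/-- the hexagon seen from the other ridge of `F_a` -/
theorem hex_swap (H : Hex P y l' l r' r) (hN : l' ∈ P.N) (hN' : l ∈ P.N) : Hex P y r r' l l' := by
  obtain ⟨h1, h2, h3, ⟨z1, k1, k2, k3⟩, ⟨z2, m1, m2, m3⟩, h4⟩ := H
  have e1 : l' = -r' := by rw [h1, neg_neg]
  have e2 : l = -r := by rw [h2, neg_neg]
  refine ⟨e2, e1, fun h => h3 (by rw [e1, e2, h]), ⟨z2, m1, ?_, m3⟩, ⟨z1, k1, ?_, k3⟩, ?_⟩
  · rw [m2, e1, e2, neg_neg, neg_neg, Set.pair_comm]
  · rw [k2, e1, e2, Set.pair_comm]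
  · rcases h4 with h4 | h4
    · right
      have := tra_neg hN h4
      rwa [e1, neg_neg] at this
    · left
      have := tra_neg hN' h4
      rwa [e2, neg_neg] at this

/-- the hexagon seen from the opposite facet -/
theorem hex_neg (H : Hex P y r' r l' l) : Hex P y r r' l l' := by
  obtain ⟨h1, h2, h3, ⟨z1, k1, k2, k3⟩, ⟨z2, m1, m2, m3⟩, h4⟩ := H
  exact ⟨h2, h1, h3.symm, ⟨z1, k1, by rw [k2, Set.pair_comm], k3⟩, ⟨z2, m1, by rw [m2, Set.pair_comm], m3⟩,
    h4.symm⟩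

/-- all cases, for an I-wall at `a` -/
theorem data_of_dat [FiniteDimensional ℝ E] (hT : IsFF P T) (D : CC95.Dat P a c ca y r r' l l')
    (hWT : WT P T a) (hWI : WI P T a) : l' = -r ∨ Hex P y r r' l l' := by
  obtain ⟨τ, hτ, σ, hσ, hs, hF⟩ := hWT
  obtain ⟨τ', hτ', σ', hσ', hs', hF'⟩ := hWI
  have hR := pat_T hT D hτ hσ hs hF
  have hL := pat_T hT D.swap hτ hσ hs hF
  have hI := pat_I hT D hτ' hσ' hs' hF'
  by_cases h0 : l' = -r
  · exact Or.inl h0
  · have h0' : r ≠ -l' := fun h => h0 (by rw [h, neg_neg])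
    rcases hI with h | h | ⟨z, hz, az, t1, t2, cz⟩ | ⟨h, h'⟩
    · exact absurd h h0
    · exact Or.inr (D.hexa0 h0 hR hL h)
    · have c2 := cong_of_mvI D.mvI D.yfc
      have c2' : Cong P (ca - y) y := by
        have := cong_of_mvI D.mvI D.y'fc
        rwa [sub_sub_cancel] at this
      have H := D.swap.hexa0 h0' hL (by rw [sub_sub_cancel]; exact hR)
        ⟨z, hz, by rw [az, Set.pair_comm], t2, t1, cong_trans c2' cz⟩
      have hN : l' ∈ P.N := by
        have : l' ∈ P.act (ca - y) := by rw [D.hl']; simp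
        exact this.1
      have hN' : l ∈ P.N := by
        have : l ∈ P.act (ca - y + c) := by rw [D.hl]; simp
        exact this.1
      exact Or.inr (hex_cong c2 (hex_swap H hN hN'))
    · exact Or.inl (D.case3 h h')

/-- ALL DATA of a varying facet -/
theorem data_of_varies [FiniteDimensional ℝ E] {T : Set (ℝ × E)} (hT : IsFF P T) {a : E}
    (hv : Varies P T a) : ∃ c ca : E, a ∈ P.N ∧ -a ∈ P.N ∧ (∀ z ∈ P.fc a, ca - z ∈ P.fc a) ∧
      (∀ z : E, z ∈ P.fc a ↔ z + c ∈ P.fc (-a)) ∧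
      ∀ y ∈ P.body, ∀ r : E, a ≠ r → P.act y = {a, r} → ∃ r' l l' : E,
        CC95.Dat P a c ca y r r' l l' ∧ (l' = -r ∨ Hex P y r r' l l') := by
  obtain ⟨ha, ha', hWT, hWI⟩ := walls hT hv
  obtain ⟨c, hc⟩ := hWT.tr hT ha ha'
  obtain ⟨ca, hca⟩ := exists_ca hT hc hWI
  refine ⟨c, ca, ha, ha', hca, hc, fun y hy r har h => ?_⟩
  obtain ⟨r', l, l', D⟩ := exists_dat ha ha' hca hc hy har h
  refine ⟨r', l, l', D, ?_⟩
  rcases hWI with hWI | hWI
  · exact data_of_dat hT D hWT hWI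
  · rcases data_of_dat hT D.neg hWT.neg hWI with h1 | h1
    · left
      -- `l = -r'`: parallelogram
      have s1 := D.neg.sgn_r
      have s2 := D.neg.swap.sgn_r
      rw [h1, inner_neg_left] at s2
      have e1 : r' = r := s1.2 (by linarith [s1.1, s2.1])
      have e2 : -r' = l' := s2.2 (by linarith [s1.1, s2.1])
      rw [← e2, e1]
    · exact Or.inr (hex_neg (hex_cong (cong_of_mvT D.mvT D.yfc) h1))

/-- a ridge of a varying facet lies in a symmetric belt of 4 or 6 facets -/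
theorem belt_of_varies [FiniteDimensional ℝ E] {T : Set (ℝ × E)} (hT : IsFF P T) {a y0 x : E}
    (hv : Varies P T a) (hy : y0 ∈ P.body) (hax : a ≠ x) (h : P.act y0 = {a, x}) :
    Pool.FF57.Belt P a y0 := by
  obtain ⟨c, ca, -, -, -, -, hd⟩ := data_of_varies hT hv
  obtain ⟨r', l, l', D, h1 | h1⟩ := hd y0 hy x hax h
  · exact D.para h1
  · exact D.hexb h1

end Pool.CC95
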