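import Pool.Agent.CC95.Def
import Pool.Agent.CC95.Uni

set_option autoImplicit false

/-! # CC95/Ord: no facet normal strictly inside the arc of a flag; the neighbours of `a` in a plane are unique -/

open Set Metric
open scoped RealInnerProductSpace

namespace Pool.CC95

open Pool.FF24 Pool.FF25 Pool.FF56

variable {E : Type*} [NormedAddCommGroup E] [InnerProductSpace ℝ E]
variable {P : HPoly E} {T : Set (ℝ × E)} {p : E} {τ σ : ℝ × E} {n n' m m' : E}

/-- PROOF. `P.real w`: a point `z` with `act z = {w}`. `h w = ⟪w, z⟫ = α ⟪u, z⟫ + β ⟪v, z⟫ ≤ α h u + β h v = ⟪w, y⟫ ≤ h w`,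
so `u, v ∈ act z = {w}`, so `u = v`. -/
theorem no_between {y u v w : E} (hy : y ∈ P.body) (huv : u ≠ v) (h : P.act y = {u, v}) (hw : w ∈ P.N)
    {α β : ℝ} (hα : 0 < α) (hβ : 0 < β) : w ≠ α • u + β • v := by
  intro he
  have hu : u ∈ P.act y := by rw [h]; exact Or.inl rfl
  have hv : v ∈ P.act y := by rw [h]; exact Or.inr rfl
  obtain ⟨z, hz, hz'⟩ := P.real w hw
  have e1 : ⟪w, z⟫ = P.h w := (hz' w hw).2 rfl
  have e2 : ⟪w, z⟫ = α * ⟪u, z⟫ + β * ⟪v, z⟫ := by
    rw [he, inner_add_left, real_inner_smul_left, real_inner_smul_left]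
  have e3 : ⟪w, y⟫ = α * ⟪u, y⟫ + β * ⟪v, y⟫ := by
    rw [he, inner_add_left, real_inner_smul_left, real_inner_smul_left]
  have h1 : ⟪w, y⟫ ≤ P.h w := hy w hw
  have h2 : ⟪u, z⟫ ≤ P.h u := hz u hu.1
  have h3 : ⟪v, z⟫ ≤ P.h v := hz v hv.1
  rw [hu.2, hv.2] at e3
  have h4 : α * ⟪u, z⟫ ≤ α * P.h u := mul_le_mul_of_nonneg_left h2 hα.le
  have h5 : β * ⟪v, z⟫ ≤ β * P.h v := mul_le_mul_of_nonneg_left h3 hβ.le
  have h6 : α * ⟪u, z⟫ = α * P.h u := by linarith
  have h7 : β * ⟪v, z⟫ = β * P.h v := by linarith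
  have h8 : u = w := (hz' u hu.1).1 (mul_left_cancel₀ hα.ne' h6)
  have h9 : v = w := (hz' v hv.1).1 (mul_left_cancel₀ hβ.ne' h7)
  exact huv (h8.trans h9.symm)

/-- PROOF. If `⟪n, w⟫ ⟪n', w⟫ < 0` then `W' n - W n'` (`W = ⟪n, w⟫ / ⟪w, w⟫` etc.) is a multiple `δ a`, `δ ≠ 0` as `n`, `n'`
are independent (`FF38.act_pair`), so `a` or `-a` is `α n + β n'` with `α, β > 0`; apply `no_between` to `τ.1 • n`,
`τ.1 • n'` and `± a ∈ N`. -/
theorem At.ord (hs : τ.1 = 1 ∨ τ.1 = -1) (h : At P T p τ n n') {a w : E} (ha : a ∈ P.N) (ha' : -a ∈ P.N)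
    (haw : ⟪a, w⟫ = 0) {A W A' W' : ℝ} (hn : n = A • a + W • w) (hn' : n' = A' • a + W' • w) :
    0 ≤ W * W' := by
  by_contra hc
  push Not at hc
  have hs0 : τ.1 ≠ 0 := by rcases hs with h1 | h1 <;> rw [h1] <;> norm_num
  have hne : τ.1 • n ≠ τ.1 • n' := fun e => h.ne (smul_right_injective E hs0 e)
  have hu : τ.1 • n ∈ P.act (crd τ p) := by rw [h.act]; exact Or.inl rfl
  have hv : τ.1 • n' ∈ P.act (crd τ p) := by rw [h.act]; exact Or.inr rfl
  have hli := act_pair h.body hu hv hne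
  have hW0 : W ≠ 0 := by
    rintro rfl
    rw [zero_mul] at hc
    exact lt_irrefl _ hc
  have hW1 : W' ≠ 0 := by
    rintro rfl
    rw [mul_zero] at hc
    exact lt_irrefl _ hc
  -- the relation
  have key : W' • n - W • n' = (W' * A - W * A') • a := by
    rw [hn, hn']
    module
  have hδ : W' * A - W * A' ≠ 0 := by
    intro h0
    rw [h0, zero_smul] at key
    have h1 : W' • (τ.1 • n) + (-W) • (τ.1 • n') = 0 := by
      have : W' • (τ.1 • n) + (-W) • (τ.1 • n') = τ.1 • (W' • n - W • n') := by module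
      rw [this, key, smul_zero]
    rw [LinearIndependent.pair_iff] at hli
    exact hW1 (hli W' (-W) h1).1
  set δ : ℝ := W' * A - W * A' with hδd
  have ea : a = (W' / δ) • n + (-W / δ) • n' := by
    have h1 : a = δ⁻¹ • (δ • a) := by rw [smul_smul, inv_mul_cancel₀ hδ, one_smul]
    rw [h1, ← key]
    rw [smul_sub, smul_smul, smul_smul]
    have h2 : W' / δ = δ⁻¹ * W' := by rw [div_eq_mul_inv, mul_comm]
    have h3 : -W / δ = -(δ⁻¹ * W) := by rw [div_eq_mul_inv]; ring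
    rw [h2, h3]
    module
  have hpq : 0 < (W' / δ) * (-W / δ) := by
    have h1 : (W' / δ) * (-W / δ) = -(W * W') / (δ * δ) := by
      rw [div_mul_div_comm]
      ring
    rw [h1]
    exact div_pos (by linarith) (mul_self_pos.2 hδ)
  set α : ℝ := W' / δ
  set β : ℝ := -W / δ
  have hact := h.act
  have main : ∀ (α β : ℝ), 0 < α → 0 < β → ∀ b : E, b = α • n + β • n' → b ∈ P.N → -b ∈ P.N → False := by
    intro α β hα hβ b hb hb1 hb2
    rcases hs with h1 | h1
    · refine no_between h.body hne hact hb1 hα hβ ?_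
      rw [h1, one_smul, one_smul]
      exact hb
    · refine no_between h.body hne hact hb2 hα hβ ?_
      rw [h1, hb]
      module
  rcases pos_and_pos_or_neg_and_neg_of_mul_pos hpq with ⟨h1, h2⟩ | ⟨h1, h2⟩
  · exact main α β h1 h2 a ea ha ha'
  · refine main (-α) (-β) (by linarith) (by linarith) (-a) ?_ ha' (by rw [neg_neg]; exact ha)
    rw [ea]
    module

/-- PROOF. `FF85.cone_disj`: if `x`, `x'` lie on the same side of `a` then the open cones of `a, x` and of `a, x'` meet. -/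
theorem flag_unique {a w x x' z z' : E} (haw : ⟪a, w⟫ = 0) (hw : w ≠ 0) (hz : z ∈ P.body) (hz' : z' ∈ P.body)
    (h : P.act z = {a, x}) (h' : P.act z' = {a, x'}) {A W A' W' : ℝ} (hx : x = A • a + W • w)
    (hx' : x' = A' • a + W' • w) (hW : 0 < W * W') : x = x' :=
  Uni.flag_unique hz hz' h h' hx hx' hW

end Pool.CC95
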