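import Pool.Agent.CC95.Wall
import Pool.Agent.FF57.CDef

set_option autoImplicit false

/-!
# CC95/Pat: the patterns at a ridge of a facet which is centrally symmetric and a translate of the opposite facet

`F_a = ca - F_a`, `F_(-a) = F_a + c`; ridges `act y = {a, r}`, `act (y + c) = {-a, r'}`, `act (ca - y) = {a, l'}`,
`act (ca - y + c) = {-a, l}`.
-/

open Set Metric
open scoped RealInnerProductSpace

namespace Pool.CC95

open Pool.FF24 Pool.FF25 Pool.FF56

variable {E : Type*} [NormedAddCommGroup E] [InnerProductSpace ℝ E]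
variable {P : HPoly E} {T : Set (ℝ × E)} {p : E} {τ σ : ℝ × E} {n n' m m' : E}

theorem fc_bdd' (P : HPoly E) (u : E) : Bornology.IsBounded (P.fc u) := by
  obtain ⟨r, hr⟩ := P.bdd
  exact isBounded_iff_forall_norm_le.2 ⟨r, fun z hz => hr z hz.1⟩

theorem fc_ne' (P : HPoly E) {u : E} (hu : u ∈ P.N) : (P.fc u).Nonempty := by
  obtain ⟨z, hz, hz'⟩ := P.real u hu
  exact ⟨z, hz, (hz' u hu).2 rfl⟩

theorem crd_of_mv (hT : IsFF P T) (hτ : τ ∈ T) (hσ : σ ∈ T) {e : ℝ} {c v v' : E} (hm : Mv P e c v v')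
    (hs : σ.1 = e * τ.1) (hF : X σ '' P.fc v' = X τ '' P.fc v) (z : E) : crd σ (X τ z) = e • z + c := by
  have ht := hT.sign τ hτ
  have hss := hT.sign σ hσ
  have htt : τ.1 * τ.1 = 1 := by rcases ht with h | h <;> rw [h] <;> norm_num
  have hs2 : σ.1 * σ.1 = 1 := by rcases hss with h | h <;> rw [h] <;> norm_num
  have hee : e * e = 1 := by rcases hm.sgn with h | h <;> rw [h] <;> norm_num
  have hse : σ.1 * e = τ.1 := by rw [hs]; linear_combination τ.1 * hee
  have h1 : τ.1 • (σ.1 • c + σ.2 - τ.2) = 0 := by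
    refine tr_zero (fc_ne' P hm.mem) (fc_bdd' P v) fun z hz => ?_
    have h2 : X σ (e • z + c) ∈ X τ '' P.fc v := by
      rw [← hF]
      exact ⟨_, (hm.iff z).1 hz, rfl⟩
    obtain ⟨z', hz', h3⟩ := h2
    have h4 : z' = z + τ.1 • (σ.1 • c + σ.2 - τ.2) := by
      have h5 := congrArg (crd τ) h3
      rw [crd_X ht] at h5
      rw [h5]
      unfold X crd
      rw [smul_add, smul_smul, hse]
      have h6 : τ.1 • (τ.1 • z + σ.1 • c + σ.2 - τ.2) = (τ.1 * τ.1) • z + τ.1 • (σ.1 • c + σ.2 - τ.2) := by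
        module
      rw [h6, htt, one_smul]
    rw [← h4]
    exact hz'
  have h2 : σ.1 • c + σ.2 - τ.2 = 0 := by
    have h3 := congrArg (fun w => τ.1 • w) h1
    simpa [smul_smul, htt] using h3
  have h3 : τ.2 = σ.1 • c + σ.2 := (sub_eq_zero.1 h2).symm
  unfold crd X
  rw [h3]
  have h4 : σ.1 • (τ.1 • z + (σ.1 • c + σ.2) - σ.2) = (σ.1 * τ.1) • z + (σ.1 * σ.1) • c := by module
  rw [h4, hs2, one_smul, hs, mul_assoc, htt, mul_one]

theorem step_eq {e : ℝ} {c v v' u y w' : E} (hm : Mv P e c v v') (hy : y ∈ P.body) (huv : u ≠ v)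
    (h : P.act y = {u, v}) (h' : P.act (e • y + c) = {v', w'}) :
    v' ≠ w' ∧ ∃ α β : ℝ, 0 < α ∧ w' = e • (α • u + β • v) := by
  obtain ⟨w, α, β, h1, hne, hα, hw⟩ := act_step hm hy huv h
  have h2 : w ∈ ({v', w'} : Set E) := by
    rw [← h', h1]
    simp
  have h3 : w = w' := by
    rcases h2 with h2 | h2
    · exact absurd h2.symm hne
    · exact h2
  rw [← h3]
  exact ⟨hne, α, β, hα, hw⟩

/-- the data of the two ridges of `F_a` and the two ridges of `F_(-a)` -/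
structure Dat (P : HPoly E) (a c ca y r r' l l' : E) : Prop where
  ha : a ∈ P.N
  ha' : -a ∈ P.N
  hca : ∀ z ∈ P.fc a, ca - z ∈ P.fc a
  hc : ∀ z : E, z ∈ P.fc a ↔ z + c ∈ P.fc (-a)
  hy : y ∈ P.body
  hr : P.act y = {a, r}
  hra : r ≠ a
  hr' : P.act (y + c) = {-a, r'}
  hl' : P.act (ca - y) = {a, l'}
  hl : P.act (ca - y + c) = {-a, l}

variable {a c ca y r r' l l' : E}

theorem Dat.mvT (D : Dat P a c ca y r r' l l') : Mv P 1 c a (-a) where
  sgn := Or.inl rfl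
  mem := D.ha
  mem' := D.ha'
  nrm := by rw [one_smul]
  iff := fun z => by rw [one_smul]; exact D.hc z

theorem Dat.mvI (D : Dat P a c ca y r r' l l') : Mv P (-1) ca a a where
  sgn := Or.inr rfl
  mem := D.ha
  mem' := D.ha
  nrm := by rw [neg_one_smul, neg_neg]
  iff := fun z => by
    have e : (-1 : ℝ) • z + ca = ca - z := by module
    rw [e]
    constructor
    · exact D.hca z
    · intro h
      have := D.hca _ h
      rwa [sub_sub_cancel] at this

theorem Dat.yfc (D : Dat P a c ca y r r' l l') : y ∈ P.fc a :=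
  ⟨D.hy, by
    have : a ∈ P.act y := by rw [D.hr]; simp
    exact this.2⟩

theorem Dat.y'fc (D : Dat P a c ca y r r' l l') : ca - y ∈ P.fc a := D.hca _ D.yfc

/-- coordinates of the four neighbours -/
theorem Dat.coord (D : Dat P a c ca y r r' l l') : ∃ w : E, ⟪a, w⟫ = 0 ∧ w ≠ 0 ∧
    (∃ A : ℝ, r = A • a + (1 : ℝ) • w) ∧ (∃ A W : ℝ, 0 < W ∧ r' = A • a + W • w) ∧
    (∃ A W : ℝ, W < 0 ∧ l' = A • a + W • w) ∧ (∃ A W : ℝ, W < 0 ∧ l = A • a + W • w) ∧
    r' ≠ -a ∧ l' ≠ a ∧ l ≠ -a := by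
  have hyr : P.act y = {r, a} := by rw [D.hr, Set.pair_comm]
  have haa : ⟪a, a⟫ = 1 := by rw [real_inner_self_eq_norm_sq, P.unit a D.ha]; norm_num
  have hrm : r ∈ P.act y := by rw [D.hr]; simp
  have ham : a ∈ P.act y := by rw [D.hr]; simp
  have hli := act_pair D.hy hrm ham D.hra
  rw [LinearIndependent.pair_iff] at hli
  obtain ⟨n1, α1, β1, p1, q1⟩ := step_eq D.mvT D.hy D.hra hyr (w' := r') (by rw [one_smul]; exact D.hr')
  obtain ⟨n2, α2, β2, p2, q2⟩ := step_eq D.mvI D.hy D.hra hyr (w' := l') (by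
    have e : (-1 : ℝ) • y + ca = ca - y := by module
    rw [e]; exact D.hl')
  have hyl : P.act (ca - y) = {l', a} := by rw [D.hl', Set.pair_comm]
  obtain ⟨n3, α3, β3, p3, q3⟩ := step_eq D.mvT D.y'fc.1 n2.symm hyl (w' := l) (by
    rw [one_smul]; exact D.hl)
  refine ⟨r - ⟪a, r⟫ • a, ?_, ?_, ⟨⟪a, r⟫, by module⟩, ⟨α1 * ⟪a, r⟫ + β1, α1, p1, ?_⟩,
    ⟨-(α2 * ⟪a, r⟫ + β2), -α2, by linarith, ?_⟩,
    ⟨-(α3 * (α2 * ⟪a, r⟫ + β2)) + β3, -(α3 * α2), by have := mul_pos p3 p2; linarith, ?_⟩, n1.symm,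
    n2.symm, n3.symm⟩
  · rw [inner_sub_right, real_inner_smul_right, haa]; ring
  · intro h0
    have h1 := hli 1 (-⟪a, r⟫) (by rw [one_smul, neg_smul, ← sub_eq_add_neg]; exact h0)
    exact one_ne_zero h1.1
  · rw [q1]; module
  · rw [q2]; module
  · rw [q3, q2]; module

/-- SIGNS, right side -/
theorem Dat.sgn_r (D : Dat P a c ca y r r' l l') : ⟪r, c⟫ ≤ 0 ∧ (⟪r, c⟫ = 0 → r = r') := by
  have hrm : r ∈ P.act y := by rw [D.hr]; simp
  have hyc : y + c ∈ P.fc (-a) := (D.hc y).1 D.yfc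
  have h1 := hyc.1 r hrm.1
  rw [inner_add_right, hrm.2] at h1
  refine ⟨by linarith, fun h0 => ?_⟩
  have h2 : r ∈ P.act (y + c) := ⟨hrm.1, by rw [inner_add_right, hrm.2, h0, add_zero]⟩
  rw [D.hr'] at h2
  rcases h2 with h2 | h2
  · exfalso
    have hli := act_pair D.hy hrm (by rw [D.hr]; simp : a ∈ P.act y) D.hra
    rw [LinearIndependent.pair_iff] at hli
    have h3 := hli 1 1 (by rw [h2]; module)
    exact one_ne_zero h3.1
  · exact h2

/-- the same data with the two ridges of `F_a` exchanged -/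
theorem Dat.swap (D : Dat P a c ca y r r' l l') : Dat P a c ca (ca - y) l' l r' r := by
  obtain ⟨w, -, -, -, -, -, -, -, h, -⟩ := D.coord
  refine ⟨D.ha, D.ha', D.hca, D.hc, D.y'fc.1, D.hl', h, D.hl, ?_, ?_⟩
  · rw [sub_sub_cancel]; exact D.hr
  · rw [sub_sub_cancel]; exact D.hr'

/-- a tile `ρ` behind a facet, at the ridge of `y`: congruent ridge, type of the crossing -/
theorem cong_of_beh {ρ : ℝ × E} (hρ : ρ.1 = 1 ∨ ρ.1 = -1) (ht : τ.1 = 1 ∨ τ.1 = -1) {x : E}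
    (h : Beh P (X τ y) τ ρ x) : Pool.FF57.Cong P y (crd ρ (X τ y)) := by
  have h1 := h.rdg
  rw [crd_X ht] at h1
  have htt : τ.1 * τ.1 = 1 := by rcases ht with h | h <;> rw [h] <;> norm_num
  have key : P.mf (crd ρ (X τ y)) = (fun z => (ρ.1 * τ.1) • z + ρ.1 • (τ.2 - ρ.2)) '' P.mf y := by
    have hrr : ρ.1 * ρ.1 = 1 := by rcases hρ with h | h <;> rw [h] <;> norm_num
    have e : ∀ z, crd ρ (X τ z) = (ρ.1 * τ.1) • z + ρ.1 • (τ.2 - ρ.2) := by
      intro z
      unfold crd X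
      module
    ext z
    constructor
    · intro hz
      have h2 : X ρ z ∈ X τ '' P.mf y := by
        rw [← h1]
        exact ⟨z, hz, rfl⟩
      obtain ⟨z', hz', h3⟩ := h2
      refine ⟨z', hz', ?_⟩
      show (ρ.1 * τ.1) • z' + ρ.1 • (τ.2 - ρ.2) = z
      rw [← e, h3, crd_X hρ]
    · rintro ⟨z', hz', rfl⟩
      show (ρ.1 * τ.1) • z' + ρ.1 • (τ.2 - ρ.2) ∈ _
      have h2 : X τ z' ∈ X ρ '' P.mf (crd ρ (X τ y)) := by
        rw [h1]
        exact ⟨z', hz', rfl⟩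
      obtain ⟨z, hz, h3⟩ := h2
      rw [← e, ← h3, crd_X hρ]
      exact hz
  rcases hρ with h2 | h2 <;> rcases ht with h3 | h3
  · refine ⟨ρ.1 • (τ.2 - ρ.2), Or.inl ?_⟩
    rw [key, h2, h3]
    simp
  · refine ⟨ρ.1 • (τ.2 - ρ.2), Or.inr ?_⟩
    rw [key, h2, h3]
    refine Set.image_congr fun z _ => ?_
    module
  · refine ⟨ρ.1 • (τ.2 - ρ.2), Or.inr ?_⟩
    rw [key, h2, h3]
    refine Set.image_congr fun z _ => ?_
    module
  · refine ⟨ρ.1 • (τ.2 - ρ.2), Or.inl ?_⟩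
    rw [key, h2, h3]
    simp

/-- PATTERN (PT): a wall of type T at `a` -/
theorem pat_T [FiniteDimensional ℝ E] (hT : IsFF P T) (D : Dat P a c ca y r r' l l') (hτ : τ ∈ T)
    (hσ : σ ∈ T) (hs : σ.1 = τ.1) (hF : X σ '' P.fc (-a) = X τ '' P.fc a) :
    r = r' ∨ (∃ z ∈ P.body, P.act z = {r, r'} ∧ Csym P r ∧ Csym P r' ∧ Pool.FF57.Cong P y z) ∨
      ∃ z ∈ P.body, P.act z = {-r, -r'} ∧ Tra P r ∧ Tra P r' ∧ Pool.FF57.Cong P y z := by
  obtain ⟨w, haw, hw, ⟨A, hr⟩, ⟨A', W', hW', hr'⟩, ⟨B, V, hV, hl'⟩, -, hr'a, hl'a, -⟩ := D.coord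
  have ht := hT.sign τ hτ
  have htt : τ.1 * τ.1 = 1 := by rcases ht with h | h <;> rw [h] <;> norm_num
  have ht0 : τ.1 ≠ 0 := by rcases ht with h | h <;> rw [h] <;> norm_num
  have hcr : crd σ (X τ y) = y + c := by
    rw [crd_of_mv hT hτ hσ D.mvT (by rw [one_mul]; exact hs) hF, one_smul]
  have hinj : ∀ x x' : E, τ.1 • x = τ.1 • x' → x = x' := fun x x' h => by
    rcases ht with h1 | h1 <;> rw [h1] at h <;> simpa using h
  have hdbl : ∀ x : E, τ.1 • (τ.1 • x) = x := fun x => by rw [smul_smul, htt, one_smul]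
  have h1 : At P T (X τ y) τ (τ.1 • a) (τ.1 • r) := by
    refine ⟨hτ, by rw [crd_X ht]; exact D.hy, fun h => D.hra (hinj _ _ h).symm, ?_⟩
    rw [crd_X ht, hdbl, hdbl]
    exact D.hr
  have h2 : At P T (X τ y) σ (-(τ.1 • a)) (τ.1 • r') := by
    refine ⟨hσ, by rw [hcr]; exact ((D.hc y).1 D.yfc).1, fun h => ?_, ?_⟩
    · rw [← smul_neg] at h
      exact hr'a (hinj _ _ h).symm
    · rw [hcr, hs, ← smul_neg, hdbl, hdbl]
      exact D.hr'
  have haN : τ.1 • a ∈ P.N ∧ -(τ.1 • a) ∈ P.N := by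
    rcases ht with h | h <;> rw [h]
    · rw [one_smul]; exact ⟨D.ha, D.ha'⟩
    · rw [neg_one_smul, neg_neg]; exact ⟨D.ha', D.ha⟩
  obtain ⟨ρ, ρ', b1, b2, hc⟩ := wall hT haN.1 haN.2 (w := τ.1 • w)
    (by rw [real_inner_smul_left, real_inner_smul_right, haw]; ring)
    (smul_ne_zero ht0 hw) h1 h2
    (A := A) (W := 1) (A' := A') (W' := W') (by rw [hr]; module) (by rw [hr']; module) one_pos hW'
  have t1 := b1.typ
  have t2 := b2.typ
  rw [hdbl] at t1
  rw [hs, hdbl] at t2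
  have hneg : τ.1 ≠ -τ.1 := by rcases ht with h | h <;> rw [h] <;> norm_num
  rcases hc with hc | ⟨hρ, hc⟩ | ⟨hc, -⟩
  · exact Or.inl (hinj _ _ hc)
  · right
    have hcg := cong_of_beh (hT.sign ρ hc.mem) ht b1
    rcases t1 with ⟨s1, c1⟩ | ⟨s1, c1⟩
    · left
      have c2 : Csym P r' := by
        rcases t2 with ⟨-, c2⟩ | ⟨s2, -⟩
        · exact c2
        · exact absurd (s2.symm.trans (by rw [← hρ]; exact s1)) hneg
      refine ⟨_, hc.body, ?_, c1, c2, hcg⟩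
      rw [hc.act, s1, neg_smul, neg_smul, smul_neg, smul_neg, neg_neg, neg_neg, hdbl, hdbl]
    · right
      have c2 : Tra P r' := by
        rcases t2 with ⟨s2, -⟩ | ⟨-, c2⟩
        · exact absurd ((show ρ.1 = τ.1 from s1).symm.trans (by rw [hρ]; exact s2)) hneg
        · exact c2
      refine ⟨_, hc.body, ?_, c1, c2, hcg⟩
      rw [hc.act, s1, smul_neg, smul_neg, hdbl, hdbl]
  · left
    rcases t1 with ⟨s1, c1⟩ | ⟨s1, c1⟩
    · -- flag `{r, -a}`
      have h3 : P.act (crd ρ (X τ y)) = {-a, r} := by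
        rw [hc.act, s1, neg_smul, neg_smul, smul_neg, neg_neg, hdbl, hdbl, Set.pair_comm]
      refine flag_unique (a := -a) (w := w) (by rw [inner_neg_left, haw, neg_zero]) hw hc.body
        ((D.hc y).1 D.yfc).1 h3 D.hr' (A := -A) (W := 1) (A' := -A') (W' := W') (by rw [hr]; module)
        (by rw [hr']; module) (by rw [one_mul]; exact hW')
    · -- flag `{-r, a}`
      have h3 : P.act (crd ρ (X τ y)) = {a, -r} := by
        rw [hc.act, s1, smul_neg, hdbl, hdbl, Set.pair_comm]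
      have h4 : -r = l' := flag_unique haw hw hc.body D.y'fc.1 h3 D.hl' (A := -A) (W := -1) (A' := B)
        (W' := V) (by rw [hr]; module) hl' (by linarith)
      have s1 := D.sgn_r
      have s2 := D.swap.sgn_r.1
      rw [← h4, inner_neg_left] at s2
      exact s1.2 (by linarith [s1.1])

/-- PATTERN (PI): a wall of type I at `a` -/
theorem pat_I [FiniteDimensional ℝ E] (hT : IsFF P T) (D : Dat P a c ca y r r' l l') (hτ : τ ∈ T)
    (hσ : σ ∈ T) (hs : σ.1 = -τ.1) (hF : X σ '' P.fc a = X τ '' P.fc a) :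
    l' = -r ∨ (∃ z ∈ P.body, P.act z = {r, -l'} ∧ Csym P r ∧ Tra P l' ∧ Pool.FF57.Cong P y z) ∨
      (∃ z ∈ P.body, P.act z = {-r, l'} ∧ Tra P r ∧ Csym P l' ∧ Pool.FF57.Cong P y z) ∨
        (r = r' ∧ l = l') := by
  obtain ⟨w, haw, hw, ⟨A, hr⟩, ⟨A', W', hW', hr'⟩, ⟨B, V, hV, hl'⟩, ⟨B', V', hV', hl⟩, hr'a, hl'a, hla⟩ :=
    D.coord
  have ht := hT.sign τ hτ
  have htt : τ.1 * τ.1 = 1 := by rcases ht with h | h <;> rw [h] <;> norm_num
  have ht0 : τ.1 ≠ 0 := by rcases ht with h | h <;> rw [h] <;> norm_num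
  have hcr : crd σ (X τ y) = ca - y := by
    rw [crd_of_mv hT hτ hσ D.mvI (by rw [hs]; ring) hF]
    module
  have hinj : ∀ x x' : E, τ.1 • x = τ.1 • x' → x = x' := fun x x' h => by
    rcases ht with h1 | h1 <;> rw [h1] at h <;> simpa using h
  have hdbl : ∀ x : E, τ.1 • (τ.1 • x) = x := fun x => by rw [smul_smul, htt, one_smul]
  have h1 : At P T (X τ y) τ (τ.1 • a) (τ.1 • r) := by
    refine ⟨hτ, by rw [crd_X ht]; exact D.hy, fun h => D.hra (hinj _ _ h).symm, ?_⟩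
    rw [crd_X ht, hdbl, hdbl]
    exact D.hr
  have h2 : At P T (X τ y) σ (-(τ.1 • a)) (-(τ.1 • l')) := by
    refine ⟨hσ, by rw [hcr]; exact D.y'fc.1, fun h => ?_, ?_⟩
    · exact hl'a (hinj _ _ (neg_injective h)).symm
    · rw [hcr, hs, neg_smul, neg_smul, smul_neg, smul_neg, neg_neg, neg_neg, hdbl, hdbl]
      exact D.hl'
  have haN : τ.1 • a ∈ P.N ∧ -(τ.1 • a) ∈ P.N := by
    rcases ht with h | h <;> rw [h]
    · rw [one_smul]; exact ⟨D.ha, D.ha'⟩
    · rw [neg_one_smul, neg_neg]; exact ⟨D.ha', D.ha⟩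
  obtain ⟨ρ, ρ', b1, b2, hc⟩ := wall hT haN.1 haN.2 (w := τ.1 • w)
    (by rw [real_inner_smul_left, real_inner_smul_right, haw]; ring)
    (smul_ne_zero ht0 hw) h1 h2
    (A := A) (W := 1) (A' := -B) (W' := -V) (by rw [hr]; module) (by rw [hl']; module) one_pos
    (by linarith)
  have t1 := b1.typ
  have t2 := b2.typ
  rw [hdbl] at t1
  rw [hs, neg_neg, neg_smul, smul_neg, neg_neg, hdbl] at t2
  have hneg : τ.1 ≠ -τ.1 := by rcases ht with h | h <;> rw [h] <;> norm_num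
  rcases hc with hc | ⟨hρ, hc⟩ | ⟨hc, hc'⟩
  · left
    rw [← smul_neg] at hc
    rw [hinj _ _ hc, neg_neg]
  · right
    have hcg := cong_of_beh (hT.sign ρ hc.mem) ht b1
    rcases t1 with ⟨s1, c1⟩ | ⟨s1, c1⟩
    · left
      have c2 : Tra P l' := by
        rcases t2 with ⟨s2, -⟩ | ⟨-, c2⟩
        · exact absurd (s2.symm.trans (by rw [← hρ]; exact s1)) hneg
        · exact c2
      refine ⟨_, hc.body, ?_, c1, c2, hcg⟩
      rw [hc.act, s1, neg_smul, neg_smul, smul_neg, neg_neg, neg_neg, hdbl, hdbl]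
    · right; left
      have c2 : Csym P l' := by
        rcases t2 with ⟨-, c2⟩ | ⟨s2, -⟩
        · exact c2
        · exact absurd ((show ρ.1 = τ.1 from s1).symm.trans (by rw [hρ]; exact s2)) hneg
      refine ⟨_, hc.body, ?_, c1, c2, hcg⟩
      rw [hc.act, s1, smul_neg, neg_neg, hdbl, hdbl]
  · have hrl : -r = l' → l' = -r := fun h => h.symm
    rcases t1 with ⟨s1, c1⟩ | ⟨s1, c1⟩
    · -- flag `{r, -a}`
      have h3 : P.act (crd ρ (X τ y)) = {-a, r} := by
        rw [hc.act, s1, neg_smul, neg_smul, smul_neg, neg_neg, hdbl, hdbl, Set.pair_comm]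
      have e1 : r = r' := flag_unique (a := -a) (w := w) (by rw [inner_neg_left, haw, neg_zero]) hw hc.body
        ((D.hc y).1 D.yfc).1 h3 D.hr' (A := -A) (W := 1) (A' := -A') (W' := W') (by rw [hr]; module)
        (by rw [hr']; module) (by rw [one_mul]; exact hW')
      rcases t2 with ⟨s2, c2⟩ | ⟨s2, c2⟩
      · -- flag `{l', -a}`
        have h4 : P.act (crd ρ' (X τ y)) = {-a, l'} := by
          rw [hc'.act, s2]
          simp only [smul_neg, neg_neg, hdbl]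
          exact Set.pair_comm _ _
        have e2 : l = l' := flag_unique (a := -a) (w := w) (by rw [inner_neg_left, haw, neg_zero]) hw
          ((D.hc _).1 D.y'fc).1 hc'.body D.hl h4 (A := -B') (W := V') (A' := -B) (W' := V)
          (by rw [hl]; module) (by rw [hl']; module) (mul_pos_of_neg_of_neg hV' hV)
        exact Or.inr (Or.inr (Or.inr ⟨e1, e2⟩))
      · -- flag `{-l', a}`
        have h4 : P.act (crd ρ' (X τ y)) = {a, -l'} := by
          rw [hc'.act, s2]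
          simp only [smul_neg, neg_smul, neg_neg, hdbl]
          exact Set.pair_comm _ _
        have e2 : -l' = r := flag_unique haw hw hc'.body D.hy h4 D.hr (A := -B) (W := -V) (A' := A)
          (W' := 1) (by rw [hl']; module) hr (by linarith)
        left
        rw [← e2, neg_neg]
    · -- flag `{-r, a}`
      have h3 : P.act (crd ρ (X τ y)) = {a, -r} := by
        rw [hc.act, s1, smul_neg, hdbl, hdbl, Set.pair_comm]
      exact Or.inl (flag_unique haw hw hc.body D.y'fc.1 h3 D.hl' (A := -A) (W := -1) (A' := B)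
        (W' := V) (by rw [hr]; module) hl' (by linarith)).symm

end Pool.CC95
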