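import Pool.Agent.CC95.Def

set_option autoImplicit false

/-! # CC95/Sep: two tiles at a ridge point whose open wedges meet are equal -/

open Set Metric
open scoped RealInnerProductSpace

namespace Pool.CC95

open Pool.FF24 Pool.FF25 Pool.FF56

variable {E : Type*} [NormedAddCommGroup E] [InnerProductSpace ℝ E]
variable {P : HPoly E} {T : Set (ℝ × E)} {p : E} {τ σ : ℝ × E} {n n' m m' : E}

/-- PROOF. `FF79.wedge_interior` (own normals `τ.1 • n`, so `τ.1 • (τ.1 • n) = n`; `X τ (crd τ p) = p`) for both tiles,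
a small common `η`; `IsFF.disj`. -/
theorem At.sep [FiniteDimensional ℝ E] (hT : IsFF P T) (h : At P T p τ n n') (k : At P T p σ m m') {x : E}
    (h1 : ⟪n, x⟫ < 0) (h2 : ⟪n', x⟫ < 0) (h3 : ⟪m, x⟫ < 0) (h4 : ⟪m', x⟫ < 0) : τ = σ := by
  have e : ∀ (s : ℝ), (s = 1 ∨ s = -1) → ∀ z : E, s • (s • z) = z := by
    intro s hs z
    rcases hs with h | h <;> rw [h] <;> simp
  have hτ := hT.sign τ h.mem
  have hσ := hT.sign σ k.mem
  obtain ⟨a, ha, ha'⟩ := FF79.wedge_interior hτ (x := x) h.body h.act (by rw [e _ hτ]; exact h1)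
    (by rw [e _ hτ]; exact h2)
  obtain ⟨b, hb, hb'⟩ := FF79.wedge_interior hσ (x := x) k.body k.act (by rw [e _ hσ]; exact h3)
    (by rw [e _ hσ]; exact h4)
  by_contra hne
  obtain ⟨η, hη, hη'⟩ := exists_between (show (0 : ℝ) < min a b from lt_min ha hb)
  exact Set.disjoint_left.1 (hT.disj τ h.mem σ k.mem hne) (ha' η hη (lt_min_iff.1 hη').1)
    (hb' η hη (lt_min_iff.1 hη').2)

end Pool.CC95
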