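import Pool.Agent.CC95.Pat

set_option autoImplicit false

/-!
# CC95/Var: a varying facet: the data at a ridge, the walls

`exists_dat`: the data `Dat` at a ridge of `a`, if `a` varies. `Dat.neg`: the same data for `-a`.
-/

open Set Metric
open scoped RealInnerProductSpace

namespace Pool.CC95

open Pool.FF24 Pool.FF25 Pool.FF56

variable {E : Type*} [NormedAddCommGroup E] [InnerProductSpace ℝ E]
variable {P : HPoly E} {T : Set (ℝ × E)} {p : E} {τ σ : ℝ × E} {n n' m m' : E}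
variable {a c ca y r r' l l' : E}

/-- the same data for the opposite facet -/
theorem Dat.neg (D : Dat P a c ca y r r' l l') : Dat P (-a) (-c) (ca + (2 : ℝ) • c) (y + c) r' r l' l := by
  obtain ⟨w, -, -, -, -, -, -, h1, h2, h3⟩ := D.coord
  have hb : ∀ z, z ∈ P.fc (-a) ↔ z - c ∈ P.fc a := fun z => by
    rw [D.hc (z - c), sub_add_cancel]
  refine ⟨D.ha', by rw [neg_neg]; exact D.ha, fun z hz => ?_, fun z => ?_, ((D.hc y).1 D.yfc).1, D.hr', h1,
    ?_, ?_, ?_⟩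
  · have h4 := D.hca _ ((hb z).1 hz)
    rw [hb]
    have e : ca + (2 : ℝ) • c - z - c = ca - (z - c) := by module
    rw [e]
    exact h4
  · rw [neg_neg, hb z, sub_eq_add_neg]
  · rw [neg_neg, add_neg_cancel_right]; exact D.hr
  · have e : ca + (2 : ℝ) • c - (y + c) = ca - y + c := by module
    rw [e]; exact D.hl
  · have e : ca + (2 : ℝ) • c - (y + c) + -c = ca - y := by module
    rw [e, neg_neg]; exact D.hl'

/-- the data exist at every ridge of `a` -/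
theorem exists_dat {x : E} (ha : a ∈ P.N) (ha' : -a ∈ P.N) (hca : ∀ z ∈ P.fc a, ca - z ∈ P.fc a)
    (hc : ∀ z : E, z ∈ P.fc a ↔ z + c ∈ P.fc (-a)) (hy : y ∈ P.body) (hx : a ≠ x)
    (h : P.act y = {a, x}) : ∃ r' l l' : E, Dat P a c ca y x r' l l' := by
  have mT : Mv P 1 c a (-a) := ⟨Or.inl rfl, ha, ha', by rw [one_smul], fun z => by rw [one_smul]; exact hc z⟩
  have mI : Mv P (-1) ca a a := ⟨Or.inr rfl, ha, ha, by rw [neg_one_smul, neg_neg], fun z => by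
    have e : (-1 : ℝ) • z + ca = ca - z := by module
    rw [e]
    constructor
    · exact hca z
    · intro h
      have := hca _ h
      rwa [sub_sub_cancel] at this⟩
  have hyx : P.act y = {x, a} := by rw [h, Set.pair_comm]
  have hyf : y ∈ P.fc a := ⟨hy, by
    have : a ∈ P.act y := by rw [h]; simp
    exact this.2⟩
  obtain ⟨r', -, -, h1, -, -, -⟩ := act_step mT hy hx.symm hyx
  obtain ⟨l', -, -, h2, hn2, -, -⟩ := act_step mI hy hx.symm hyx
  have e : (-1 : ℝ) • y + ca = ca - y := by module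
  rw [e] at h2
  have hyl : P.act (ca - y) = {l', a} := by rw [h2, Set.pair_comm]
  obtain ⟨l, -, -, h3, -, -, -⟩ := act_step mT (hca _ hyf).1 hn2.symm hyl
  rw [one_smul] at h1 h3
  exact ⟨r', l, l', ha, ha', hca, hc, hy, h, hx.symm, h1, h2, h3⟩

/-- a T-wall at `a` -/
def WT (P : HPoly E) (T : Set (ℝ × E)) (a : E) : Prop :=
  ∃ τ ∈ T, ∃ σ ∈ T, σ.1 = τ.1 ∧ X σ '' P.fc (-a) = X τ '' P.fc a

/-- an I-wall at `a` -/
def WI (P : HPoly E) (T : Set (ℝ × E)) (a : E) : Prop :=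
  ∃ τ ∈ T, ∃ σ ∈ T, σ.1 = -τ.1 ∧ X σ '' P.fc a = X τ '' P.fc a

theorem walls (hT : IsFF P T) {a : E} (hv : Pool.FF57.Varies P T a) :
    a ∈ P.N ∧ -a ∈ P.N ∧ WT P T a ∧ (WI P T a ∨ WI P T (-a)) := by
  have sm : ∀ τ ∈ T, τ.1 * τ.1 = 1 := fun τ h => by
    rcases hT.sign τ h with h | h <;> rw [h] <;> norm_num
  obtain ⟨⟨τ, σ, u, hu, ⟨hτ, hσ, hne, huN, v, hvN, hF⟩, hs⟩, τ', σ', u', hu', ⟨hτ', hσ', hne', huN', v',
    hvN', hF'⟩, hs'⟩ := hv
  have h1 := Pool.FF79.facet_normal P (hT.sign τ hτ) (hT.sign σ hσ) huN hvN (hT.disj τ hτ σ hσ hne.symm) hF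
  have h2 := Pool.FF79.facet_normal P (hT.sign τ' hτ') (hT.sign σ' hσ') huN' hvN'
    (hT.disj τ' hτ' σ' hσ' hne'.symm) hF'
  have e1 : v = -u := by
    rw [hs, ← smul_neg] at h1
    have := congrArg (fun w => τ.1 • w) h1
    simpa [smul_smul, sm τ hτ] using this
  have e2 : v' = u' := by
    rw [hs', neg_smul, neg_inj] at h2
    have := congrArg (fun w => τ'.1 • w) h2
    simpa [smul_smul, sm τ' hτ'] using this
  rw [e1] at hF hvN
  rw [e2] at hF'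
  have hWT : a ∈ P.N ∧ -a ∈ P.N ∧ WT P T a := by
    rcases hu with rfl | rfl
    · exact ⟨huN, hvN, τ, hτ, σ, hσ, hs, hF⟩
    · rw [neg_neg] at hF hvN
      exact ⟨hvN, huN, σ, hσ, τ, hτ, hs.symm, hF.symm⟩
  refine ⟨hWT.1, hWT.2.1, hWT.2.2, ?_⟩
  rcases hu' with rfl | rfl
  · exact Or.inl ⟨τ', hτ', σ', hσ', hs', hF'⟩
  · exact Or.inr ⟨τ', hτ', σ', hσ', hs', hF'⟩

/-- a T-wall gives the translation -/
theorem WT.tr (hT : IsFF P T) (ha : a ∈ P.N) (ha' : -a ∈ P.N) (h : WT P T a) :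
    ∃ c : E, ∀ z : E, z ∈ P.fc a ↔ z + c ∈ P.fc (-a) := by
  obtain ⟨τ, hτ, σ, hσ, hs, hF⟩ := h
  have ht := hT.sign τ hτ
  have hss := hT.sign σ hσ
  have htt : τ.1 * τ.1 = 1 := by rcases ht with h | h <;> rw [h] <;> norm_num
  have e : ∀ z, crd σ (X τ z) = z + τ.1 • (τ.2 - σ.2) := fun z => by
    unfold crd X
    rw [hs]
    have : τ.1 • (τ.1 • z + τ.2 - σ.2) = (τ.1 * τ.1) • z + τ.1 • (τ.2 - σ.2) := by module
    rw [this, htt, one_smul]
  refine ⟨τ.1 • (τ.2 - σ.2), fun z => ?_⟩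
  rw [← e]
  constructor
  · intro hz
    have h1 : X τ z ∈ X σ '' P.fc (-a) := by rw [hF]; exact ⟨z, hz, rfl⟩
    obtain ⟨z', hz', h2⟩ := h1
    rw [← h2, crd_X hss]
    exact hz'
  · intro hz
    have h1 : X τ z ∈ X τ '' P.fc a := by
      rw [← hF]
      exact ⟨_, hz, X_crd hss _⟩
    obtain ⟨z', hz', h2⟩ := h1
    have h3 := congrArg (crd τ) h2
    rw [crd_X ht, crd_X ht] at h3
    rw [← h3]
    exact hz'

/-- an I-wall gives the centre -/
theorem WI.cs (hT : IsFF P T) (h : WI P T a) : ∃ ca : E, ∀ z ∈ P.fc a, ca - z ∈ P.fc a := by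
  obtain ⟨τ, hτ, σ, hσ, hs, hF⟩ := h
  have ht := hT.sign τ hτ
  have hss := hT.sign σ hσ
  have htt : τ.1 * τ.1 = 1 := by rcases ht with h | h <;> rw [h] <;> norm_num
  refine ⟨-(τ.1 • (τ.2 - σ.2)), fun z hz => ?_⟩
  have e : crd σ (X τ z) = -(τ.1 • (τ.2 - σ.2)) - z := by
    unfold crd X
    rw [hs]
    have : -τ.1 • (τ.1 • z + τ.2 - σ.2) = -(τ.1 • (τ.2 - σ.2)) - (τ.1 * τ.1) • z := by module
    rw [this, htt, one_smul]
  rw [← e]
  have h1 : X τ z ∈ X σ '' P.fc a := by rw [hF]; exact ⟨z, hz, rfl⟩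
  obtain ⟨z', hz', h2⟩ := h1
  rw [← h2, crd_X hss]
  exact hz'

/-- the centre, from a wall at `a` or `-a` -/
theorem exists_ca (hT : IsFF P T) (hc : ∀ z : E, z ∈ P.fc a ↔ z + c ∈ P.fc (-a))
    (h : WI P T a ∨ WI P T (-a)) : ∃ ca : E, ∀ z ∈ P.fc a, ca - z ∈ P.fc a := by
  rcases h with h | h
  · exact h.cs hT
  · obtain ⟨ca, hca⟩ := h.cs hT
    refine ⟨ca - (2 : ℝ) • c, fun z hz => ?_⟩
    rw [hc]
    have e : ca - (2 : ℝ) • c - z + c = ca - (z + c) := by module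
    rw [e]
    exact hca _ ((hc z).1 hz)

end Pool.CC95
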