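import Pool.Agent.CC95.Sep
import Pool.Agent.CC95.Beh
import Pool.Agent.CC95.Ord

set_option autoImplicit false

/-! # CC95/Wall: the two tiles at a wall with normals `a`, `-a`, and the next ones -/

open Set Metric
open scoped RealInnerProductSpace

namespace Pool.CC95

open Pool.FF24 Pool.FF25 Pool.FF56

variable {E : Type*} [NormedAddCommGroup E] [InnerProductSpace ℝ E]
variable {P : HPoly E} {T : Set (ℝ × E)} {p : E} {τ σ : ℝ × E} {n n' m m' : E}

theorem small_neg {c d : ℝ} (h : c < 0 ∨ (c = 0 ∧ d < 0)) :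
    ∃ ε : ℝ, 0 < ε ∧ ∀ t, 0 < t → t < ε → c + t * d < 0 := by
  rcases h with h | ⟨h, h'⟩
  · refine ⟨-c / (|d| + 1), by have := abs_nonneg d; apply div_pos <;> linarith, fun t ht htc => ?_⟩
    have h1 : 0 < |d| + 1 := by have := abs_nonneg d; linarith
    have h2 : t * (|d| + 1) < -c := by rwa [lt_div_iff₀ h1] at htc
    have h3 : t * d ≤ t * |d| := mul_le_mul_of_nonneg_left (le_abs_self d) ht.le
    nlinarith
  · exact ⟨1, one_pos, fun t ht _ => by rw [h, zero_add]; exact mul_neg_of_pos_of_neg ht h'⟩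

theorem At.norm_one (hs : τ.1 = 1 ∨ τ.1 = -1) (h : At P T p τ n n') : ‖n'‖ = 1 := by
  have h1 : τ.1 • n' ∈ P.act (crd τ p) := by rw [h.act]; simp
  have h2 := P.unit _ h1.1
  rw [norm_smul] at h2
  rcases hs with hs | hs <;> rw [hs] at h2 <;> simpa using h2

theorem wall [FiniteDimensional ℝ E] (hT : IsFF P T) {a w r s : E} (ha : a ∈ P.N) (ha' : -a ∈ P.N)
    (haw : ⟪a, w⟫ = 0) (hw : w ≠ 0) (h : At P T p τ a r) (k : At P T p σ (-a) s)
    {A W A' W' : ℝ} (hr : r = A • a + W • w) (hs : s = A' • a + W' • w) (hW : 0 < W) (hW' : 0 < W') :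
    ∃ ρ ρ' : ℝ × E, Beh P p τ ρ r ∧ Beh P p σ ρ' s ∧ (r = s ∨
      (ρ = ρ' ∧ At P T p ρ (-r) (-s)) ∨ (At P T p ρ (-r) a ∧ At P T p ρ' (-s) (-a))) := by
  obtain ⟨ρ, hρ, α, β, hα, hA⟩ := h.behind hT
  obtain ⟨ρ', hρ', α', β', hα', hA'⟩ := k.behind hT
  refine ⟨ρ, ρ', hρ, hρ', ?_⟩
  have hww : 0 < ⟪w, w⟫ := real_inner_self_pos.2 hw
  have haa : ⟪a, a⟫ = 1 := by rw [real_inner_self_eq_norm_sq, P.unit a ha]; norm_num
  have hwa : ⟪w, a⟫ = 0 := by rw [real_inner_comm]; exact haw
  have e1 : -r = (-A) • a + (-W) • w := by rw [hr]; module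
  have e2 : α • a + β • r = (α + β * A) • a + (β * W) • w := by rw [hr]; module
  have e3 : -s = (-A') • a + (-W') • w := by rw [hs]; module
  have e4 : α' • (-a) + β' • s = (-α' + β' * A') • a + (β' * W') • w := by rw [hs]; module
  have o1 := hA.ord (hT.sign ρ hA.mem) ha ha' haw e1 e2
  have o2 := hA'.ord (hT.sign ρ' hA'.mem) ha ha' haw e3 e4
  have hβ : β ≤ 0 := by
    by_contra hc
    push Not at hc
    have : 0 < β * (W * W) := mul_pos hc (mul_pos hW hW)
    nlinarith
  have hβ' : β' ≤ 0 := by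
    by_contra hc
    push Not at hc
    have : 0 < β' * (W' * W') := mul_pos hc (mul_pos hW' hW')
    nlinarith
  have inn : ∀ (B V t : ℝ), ⟪B • a + V • w, w + t • a⟫ = V * ⟪w, w⟫ + t * B := by
    intro B V t
    simp only [inner_add_left, inner_add_right, real_inner_smul_left, real_inner_smul_right, haw, hwa,
      haa]
    ring
  by_cases hb : β = 0 ∧ β' = 0
  · right; right
    have n1 := hA.norm_one (hT.sign ρ hA.mem)
    have n2 := hA'.norm_one (hT.sign ρ' hA'.mem)
    rw [hb.1, zero_smul, add_zero, norm_smul, P.unit a ha, mul_one, Real.norm_eq_abs, abs_of_pos hα] at n1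
    rw [hb.2, zero_smul, add_zero, norm_smul, P.unit _ ha', mul_one, Real.norm_eq_abs, abs_of_pos hα'] at n2
    rw [hb.1, n1, zero_smul, add_zero, one_smul] at hA
    rw [hb.2, n2, zero_smul, add_zero, one_smul] at hA'
    exact ⟨hA, hA'⟩
  · have hρρ : ρ = ρ' := by
      rcases hβ.lt_or_eq with hlt | heq
      · -- `x = w + t a`, `t > 0` small
        obtain ⟨ε1, p1, f1⟩ := small_neg (c := (-W) * ⟪w, w⟫) (d := -A)
          (Or.inl (by have := mul_pos hW hww; linarith))
        obtain ⟨ε2, p2, f2⟩ := small_neg (c := (β * W) * ⟪w, w⟫) (d := α + β * A)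
          (Or.inl (mul_neg_of_neg_of_pos (mul_neg_of_neg_of_pos hlt hW) hww))
        obtain ⟨ε3, p3, f3⟩ := small_neg (c := (-W') * ⟪w, w⟫) (d := -A')
          (Or.inl (by have := mul_pos hW' hww; linarith))
        obtain ⟨ε4, p4, f4⟩ := small_neg (c := (β' * W') * ⟪w, w⟫) (d := -α' + β' * A') (by
          rcases hβ'.lt_or_eq with h1 | h1
          · left; exact mul_neg_of_neg_of_pos (mul_neg_of_neg_of_pos h1 hW') hww
          · right; rw [h1]; constructor
            · ring
            · linarith)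
        obtain ⟨t, ht, htt⟩ : ∃ t : ℝ, 0 < t ∧ t < min (min ε1 ε2) (min ε3 ε4) :=
          ⟨min (min ε1 ε2) (min ε3 ε4) / 2, by positivity, by
            have : 0 < min (min ε1 ε2) (min ε3 ε4) := by positivity
            linarith⟩
        simp only [lt_min_iff] at htt
        refine hA.sep hT hA' (x := w + t • a) ?_ ?_ ?_ ?_
        · rw [e1, inn]; exact f1 t ht htt.1.1
        · rw [e2, inn]; exact f2 t ht htt.1.2
        · rw [e3, inn]; exact f3 t ht htt.2.1
        · rw [e4, inn]; exact f4 t ht htt.2.2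
      · have hlt' : β' < 0 := lt_of_le_of_ne hβ' (fun h1 => hb ⟨heq, h1⟩)
        obtain ⟨ε1, p1, f1⟩ := small_neg (c := (-W) * ⟪w, w⟫) (d := A)
          (Or.inl (by have := mul_pos hW hww; linarith))
        obtain ⟨ε2, p2, f2⟩ := small_neg (c := (β * W) * ⟪w, w⟫) (d := -(α + β * A))
          (Or.inr ⟨by rw [heq]; ring, by rw [heq]; linarith⟩)
        obtain ⟨ε3, p3, f3⟩ := small_neg (c := (-W') * ⟪w, w⟫) (d := A')
          (Or.inl (by have := mul_pos hW' hww; linarith))
        obtain ⟨ε4, p4, f4⟩ := small_neg (c := (β' * W') * ⟪w, w⟫) (d := -(-α' + β' * A'))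
          (Or.inl (mul_neg_of_neg_of_pos (mul_neg_of_neg_of_pos hlt' hW') hww))
        obtain ⟨t, ht, htt⟩ : ∃ t : ℝ, 0 < t ∧ t < min (min ε1 ε2) (min ε3 ε4) :=
          ⟨min (min ε1 ε2) (min ε3 ε4) / 2, by positivity, by
            have : 0 < min (min ε1 ε2) (min ε3 ε4) := by positivity
            linarith⟩
        simp only [lt_min_iff] at htt
        refine hA.sep hT hA' (x := w + (-t) • a) ?_ ?_ ?_ ?_
        · rw [e1, inn]; have := f1 t ht htt.1.1; linarith
        · rw [e2, inn]; have := f2 t ht htt.1.2; linarith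
        · rw [e3, inn]; have := f3 t ht htt.2.1; linarith
        · rw [e4, inn]; have := f4 t ht htt.2.2; linarith
    subst hρρ
    have hset := hA.act.symm.trans hA'.act
    have hinj : ∀ x y : E, ρ.1 • x = ρ.1 • y → x = y := by
      intro x y hxy
      rcases hT.sign ρ hA.mem with h1 | h1 <;> rw [h1] at hxy <;> simpa using hxy
    rcases Set.pair_eq_pair_iff.1 hset with ⟨h1, h2⟩ | ⟨h1, h2⟩
    · left
      exact neg_injective (hinj _ _ h1)
    · right; left
      refine ⟨rfl, ?_⟩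
      rw [hinj _ _ h2] at hA
      exact hA

end Pool.CC95
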